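import Pool.Agent.K3h46.MU.Prog
import Pool.Agent.R416.CV.Asym

/-!
# Counting the choices with a small union: progressions in windows
-/

set_option autoImplicit false

open Finset

namespace Pool.Agent.K3h46.MU

open Pool.Agent.R416.CV

/-- the first element of the class `r` modulo `p` in the window `j` -/
def fst (W p r j : ℕ) : ℕ := (j * W + 1) + ((r + (p - (j * W + 1) % p)) % p)

theorem fst_mod {W p r j : ℕ} (hp : 0 < p) (hr : r < p) : fst W p r j % p = r := by
  unfold fst
  obtain ⟨s, hs⟩ : ∃ s, s = j * W + 1 := ⟨_, rfl⟩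
  rw [← hs, Nat.add_mod_mod]
  have h1 := Nat.div_add_mod s p
  have h2 := Nat.mod_lt s hp
  have h3 : s + (r + (p - s % p)) = r + p * (s / p + 1) := by
    rw [mul_add, mul_one]
    omega
  rw [h3, Nat.add_mul_mod_self_left, Nat.mod_eq_of_lt hr]

theorem fst_ge (W p r j : ℕ) : j * W + 1 ≤ fst W p r j := Nat.le_add_right _ _

theorem fst_lt {W p r j : ℕ} (hp : 0 < p) : fst W p r j < j * W + 1 + p := by
  unfold fst
  have := Nat.mod_lt (r + (p - (j * W + 1) % p)) hp
  omega

/-- the first `k` elements of the class `r` modulo `p` in the window `j` -/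
def seg (k W p r j : ℕ) : Finset ℕ := (range k).image fun i => fst W p r j + i * p

/-- the window -/
def win (W j : ℕ) : Finset ℕ := Icc (j * W + 1) (j * W + W)

theorem seg_win {k W p r j : ℕ} (hp : 0 < p) (hk : k * p ≤ W) : seg k W p r j ⊆ win W j := by
  intro n hn
  obtain ⟨i, hi, rfl⟩ := mem_image.1 hn
  rw [mem_range] at hi
  rw [win, mem_Icc]
  have h1 := fst_ge W p r j
  have h2 := fst_lt (W := W) (r := r) (j := j) hp
  have h3 : (i + 1) * p ≤ k * p := Nat.mul_le_mul_right p hi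
  have h4 : (i + 1) * p = i * p + p := by ring
  constructor
  · omega
  · omega

theorem seg_mod {k W p r j n : ℕ} (hp : 0 < p) (hr : r < p) (hn : n ∈ seg k W p r j) :
    n % p = r := by
  obtain ⟨i, hi, rfl⟩ := mem_image.1 hn
  rw [Nat.add_mul_mod_self_right]
  exact fst_mod hp hr

theorem win_disj {W i j : ℕ} (hij : i ≠ j) : Disjoint (win W i) (win W j) := by
  rw [Finset.disjoint_left]
  intro n h1 h2
  rw [win, mem_Icc] at h1 h2
  rcases lt_or_gt_of_ne hij with h | h
  · have : (i + 1) * W ≤ j * W := Nat.mul_le_mul_right W h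
    have h4 : (i + 1) * W = i * W + W := by ring
    omega
  · have : (j + 1) * W ≤ i * W := Nat.mul_le_mul_right W h
    have h4 : (j + 1) * W = j * W + W := by ring
    omega

theorem win_sub {N W J j : ℕ} (hJ : J * W ≤ N) (hj : j < J) : win W j ⊆ Icc 1 N := by
  intro n hn
  rw [win, mem_Icc] at hn
  rw [mem_Icc]
  have : (j + 1) * W ≤ J * W := Nat.mul_le_mul_right W hj
  have h4 : (j + 1) * W = j * W + W := by ring
  constructor <;> omega

/-- the residues with at least half of their segments in `C` -/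
def richG (k W : ℕ) (G : Finset ℕ) (p : ℕ) (C : Finset ℕ) : Finset ℕ :=
  (range p).filter fun r => G.card ≤ 2 * (G.filter fun j => seg k W p r j ⊆ C).card

/-- the moment bound for the numbers of rich residues -/
theorem rich_moment {k W : ℕ} {κ : ℝ} (h1 : 1 < κ) (h2 : κ ≤ 2) (hk1 : 1 ≤ k)
    (hprog : ∀ T D : Finset ℤ, ∑ d ∈ D, ((starts k T d).card : ℝ) ^ (κ - 1) ≤ (T.card : ℝ) ^ κ)
    (P G C : Finset ℕ) (hP : ∀ p ∈ P, 0 < p) (hW : ∀ p ∈ P, k * p ≤ W) (hG : G.Nonempty) (Y : ℝ)
    (hY : ∀ j ∈ G, ((C ∩ win W j).card : ℝ) ≤ Y) :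
    ∑ p ∈ P, ((richG k W G p C).card : ℝ) ^ (κ - 1) ≤ 2 * Y ^ κ := by
  classical
  have hκ : 0 < κ - 1 := by linarith
  have hGc : (0 : ℝ) < G.card := by exact_mod_cast Finset.card_pos.2 hG
  obtain ⟨m, hm⟩ : ∃ m : ℕ → ℕ → ℕ, ∀ p j, m p j =
      ((richG k W G p C).filter fun r => seg k W p r j ⊆ C).card := ⟨_, fun _ _ => rfl⟩
  -- each window
  have hwin : ∀ j ∈ G, ∑ p ∈ P, (m p j : ℝ) ^ (κ - 1) ≤ Y ^ κ := by
    intro j hj
    set T : Finset ℤ := (C ∩ win W j).image fun n : ℕ => (n : ℤ) with hT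
    have hTc : T.card = (C ∩ win W j).card :=
      Finset.card_image_of_injective _ Nat.cast_injective
    have h3 := hprog T (P.image fun p : ℕ => (p : ℤ))
    rw [Finset.sum_image (fun x _ y _ hxy => by exact_mod_cast hxy)] at h3
    have h4 : ∀ p ∈ P, (m p j : ℝ) ^ (κ - 1) ≤ ((starts k T (p : ℤ)).card : ℝ) ^ (κ - 1) := by
      intro p hp
      apply Real.rpow_le_rpow (Nat.cast_nonneg _) _ hκ.le
      rw [Nat.cast_le, hm]
      apply Finset.card_le_card_of_injOn (fun r => ((fst W p r j : ℕ) : ℤ))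
      · intro r hr
        rw [mem_coe, mem_filter] at hr
        rw [mem_coe]
        unfold starts
        rw [mem_filter]
        have hseg : ∀ i : ℕ, i < k → ((fst W p r j : ℕ) : ℤ) + i * p ∈ T := by
          intro i hi
          rw [hT, mem_image]
          refine ⟨fst W p r j + i * p, ?_, by push_cast; ring⟩
          have hmem : fst W p r j + i * p ∈ seg k W p r j :=
            mem_image.2 ⟨i, mem_range.2 hi, rfl⟩
          exact mem_inter.2 ⟨hr.2 hmem, seg_win (hP p hp) (hW p hp) hmem⟩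
        refine ⟨?_, hseg⟩
        have := hseg 0 (by omega)
        simpa using this
      · intro r hr s hs hrs
        rw [mem_coe, mem_filter, richG, mem_filter, mem_range] at hr hs
        have h5 : fst W p r j = fst W p s j := by
          simp only at hrs
          exact_mod_cast hrs
        rw [← fst_mod (W := W) (j := j) (hP p hp) hr.1.1, h5, fst_mod (hP p hp) hs.1.1]
    refine (Finset.sum_le_sum h4).trans (h3.trans ?_)
    rw [hTc]
    exact Real.rpow_le_rpow (Nat.cast_nonneg _) (hY j hj) (by linarith)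
  -- averaging over the windows
  have havg : ∀ p ∈ P, ((richG k W G p C).card : ℝ) ^ (κ - 1) * G.card ≤
      2 * ∑ j ∈ G, (m p j : ℝ) ^ (κ - 1) := by
    intro p _
    obtain ⟨ρ, hρ⟩ : ∃ ρ, ρ = (richG k W G p C).card := ⟨_, rfl⟩
    rw [← hρ]
    rcases Nat.eq_zero_or_pos ρ with h0 | h0
    · rw [h0, Nat.cast_zero, Real.zero_rpow hκ.ne', zero_mul]
      exact mul_nonneg (by norm_num) (Finset.sum_nonneg fun j _ =>
        Real.rpow_nonneg (Nat.cast_nonneg _) _)
    have hρ0 : (0 : ℝ) < ρ := by exact_mod_cast h0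
    have hmle : ∀ j, m p j ≤ ρ := fun j => by rw [hρ, hm]; exact card_filter_le _ _
    have h5 : (ρ : ℝ) * G.card ≤ 2 * ∑ j ∈ G, (m p j : ℝ) := by
      have e1 : ∑ j ∈ G, m p j =
          ∑ r ∈ richG k W G p C, (G.filter fun j => seg k W p r j ⊆ C).card := by
        rw [Finset.sum_congr rfl fun j _ => hm p j]
        exact Finset.sum_card_bipartiteAbove_eq_sum_card_bipartiteBelow
          (fun (j r : ℕ) => seg k W p r j ⊆ C)
      have e2 : ∑ r ∈ richG k W G p C, G.card ≤
          ∑ r ∈ richG k W G p C, 2 * (G.filter fun j => seg k W p r j ⊆ C).card := by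
        apply Finset.sum_le_sum
        intro r hr
        rw [richG, mem_filter] at hr
        exact hr.2
      rw [Finset.sum_const, ← Finset.mul_sum, ← e1, smul_eq_mul, ← hρ] at e2
      exact_mod_cast e2
    have h6 : ∀ j ∈ G, (ρ : ℝ) ^ (κ - 1) * ((m p j : ℝ) / ρ) ≤ (m p j : ℝ) ^ (κ - 1) := by
      intro j _
      have h7 : (m p j : ℝ) / ρ ≤ 1 := by
        rw [div_le_one hρ0]
        exact_mod_cast hmle j
      have h8 : (m p j : ℝ) / ρ ≤ ((m p j : ℝ) / ρ) ^ (κ - 1) := by
        rcases (Nat.zero_le (m p j)).eq_or_lt with h9 | h9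
        · rw [← h9]; simp [Real.zero_rpow hκ.ne']
        · have h10 : 0 < (m p j : ℝ) / ρ := div_pos (by exact_mod_cast h9) hρ0
          have := Real.rpow_le_rpow_of_exponent_ge h10 h7 (show κ - 1 ≤ 1 by linarith)
          rwa [Real.rpow_one] at this
      calc (ρ : ℝ) ^ (κ - 1) * ((m p j : ℝ) / ρ) ≤ (ρ : ℝ) ^ (κ - 1) * ((m p j : ℝ) / ρ) ^ (κ - 1) := by
            gcongr
        _ = (m p j : ℝ) ^ (κ - 1) := by
            rw [← Real.mul_rpow (by positivity) (by positivity), mul_div_cancel₀ _ hρ0.ne']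
    calc (ρ : ℝ) ^ (κ - 1) * G.card = (ρ : ℝ) ^ (κ - 1) * ((ρ : ℝ) * G.card / ρ) := by
          rw [mul_div_cancel_left₀ _ hρ0.ne']
      _ ≤ (ρ : ℝ) ^ (κ - 1) * (2 * (∑ j ∈ G, (m p j : ℝ)) / ρ) := by gcongr
      _ = 2 * ∑ j ∈ G, (ρ : ℝ) ^ (κ - 1) * ((m p j : ℝ) / ρ) := by
          rw [← Finset.mul_sum, ← Finset.sum_div]
          ring
      _ ≤ _ := by
          gcongr with j hj
          exact h6 j hj
  have h7 : (∑ p ∈ P, ((richG k W G p C).card : ℝ) ^ (κ - 1)) * G.card ≤ 2 * Y ^ κ * G.card := by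
    calc (∑ p ∈ P, ((richG k W G p C).card : ℝ) ^ (κ - 1)) * G.card
        = ∑ p ∈ P, ((richG k W G p C).card : ℝ) ^ (κ - 1) * G.card := by rw [Finset.sum_mul]
      _ ≤ ∑ p ∈ P, 2 * ∑ j ∈ G, (m p j : ℝ) ^ (κ - 1) := Finset.sum_le_sum havg
      _ = 2 * ∑ j ∈ G, ∑ p ∈ P, (m p j : ℝ) ^ (κ - 1) := by
          rw [← Finset.mul_sum, Finset.sum_comm]
      _ ≤ 2 * ∑ j ∈ G, Y ^ κ := by
          gcongr with j hj
          exact hwin j hj
      _ = 2 * Y ^ κ * G.card := by
          rw [Finset.sum_const, nsmul_eq_mul]; ring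
  exact le_of_mul_le_mul_right h7 hGc

variable {P : Finset ℕ}

/-- the union of the segments of the classes `a p`, `p ∈ D`, in the windows of `G` -/
def CC (k W : ℕ) (G : Finset ℕ) (D : Finset {p // p ∈ P}) (a : {p // p ∈ P} → ℕ) : Finset ℕ :=
  D.biUnion fun p => G.biUnion fun j => seg k W p.1 (a p) j

theorem CC_congr {k W : ℕ} {G : Finset ℕ} {D : Finset {p // p ∈ P}} {a b : {p // p ∈ P} → ℕ}
    (h : ∀ p ∈ D, a p = b p) : CC k W G D a = CC k W G D b := by
  unfold CC
  apply Finset.biUnion_congr rfl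
  intro p hp
  rw [h p hp]

theorem CC_sub {N k W J : ℕ} {G : Finset ℕ} (hG : G ⊆ range J) (hJ : J * W ≤ N)
    (hP : ∀ p ∈ P, 0 < p) (hW : ∀ p ∈ P, k * p ≤ W) (D : Finset {p // p ∈ P})
    (a : {p // p ∈ P} → ℕ) (ha : ∀ p, a p < p.1) : CC k W G D a ⊆ cov N univ a := by
  intro n hn
  unfold CC at hn
  rw [mem_biUnion] at hn
  obtain ⟨p, hp, hn⟩ := hn
  rw [mem_biUnion] at hn
  obtain ⟨j, hj, hn⟩ := hn
  rw [cov, mem_filter]
  refine ⟨win_sub hJ (mem_range.1 (hG hj)) (seg_win (hP p.1 p.2) (hW p.1 p.2) hn), p, mem_univ _,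
    seg_mod (hP p.1 p.2) (ha p) hn⟩

/-- the greedy choice -/
theorem greedy2 {k W : ℕ} {G : Finset ℕ}
    (hP : ∀ p ∈ P, 0 < p) (hW : ∀ p ∈ P, k * p ≤ W)
    (a : {p // p ∈ P} → ℕ) (ha : ∀ p, a p < p.1) :
    ∃ D : Finset {p // p ∈ P}, D.card * G.card ≤ 2 * (CC k W G D a).card ∧
      ∀ p, p ∉ D → a p ∈ richG k W G p.1 (CC k W G D a) := by
  classical
  obtain ⟨D, hD, hmax⟩ := exists_max_image ((univ : Finset (Finset {p // p ∈ P})).filter
    (fun D => D.card * G.card ≤ 2 * (CC k W G D a).card)) (fun D => D.card)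
    ⟨∅, by simp⟩
  rw [mem_filter] at hD
  refine ⟨D, hD.2, ?_⟩
  intro p hp
  by_contra hnot
  rw [richG, mem_filter, mem_range] at hnot
  have h1 : 2 * (G.filter fun j => seg k W p.1 (a p) j ⊆ CC k W G D a).card < G.card := by
    by_contra hcon
    push Not at hcon
    exact hnot ⟨ha p, hcon⟩
  have h2 := Finset.card_filter_add_card_filter_not (s := G)
    (fun j => seg k W p.1 (a p) j ⊆ CC k W G D a)
  -- one new element in every other window
  have h3 : ∀ j ∈ G.filter (fun j => ¬ seg k W p.1 (a p) j ⊆ CC k W G D a),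
      ∃ n ∈ seg k W p.1 (a p) j, n ∉ CC k W G D a := by
    intro j hj
    rw [mem_filter] at hj
    exact Finset.not_subset.1 hj.2
  choose! f hf1 hf2 using h3
  have h4 : (CC k W G D a).card + (G.filter (fun j => ¬ seg k W p.1 (a p) j ⊆ CC k W G D a)).card ≤
      (CC k W G (insert p D) a).card := by
    have e1 : (G.filter (fun j => ¬ seg k W p.1 (a p) j ⊆ CC k W G D a)).card =
        ((G.filter (fun j => ¬ seg k W p.1 (a p) j ⊆ CC k W G D a)).image f).card := by
      rw [Finset.card_image_of_injOn]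
      intro i hi j hj hij
      rw [mem_coe] at hi hj
      by_contra hne
      have a1 := seg_win (hP p.1 p.2) (hW p.1 p.2) (hf1 i hi)
      have a2 := seg_win (hP p.1 p.2) (hW p.1 p.2) (hf1 j hj)
      rw [hij] at a1
      exact Finset.disjoint_left.1 (win_disj hne) a1 a2
    rw [e1, ← Finset.card_union_of_disjoint]
    · apply Finset.card_le_card
      intro n hn
      rw [mem_union] at hn
      unfold CC
      rw [Finset.biUnion_insert, mem_union]
      rcases hn with hn | hn
      · right; exact hn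
      · left
        obtain ⟨j, hj, rfl⟩ := mem_image.1 hn
        rw [mem_biUnion]
        exact ⟨j, (mem_filter.1 hj).1, hf1 j hj⟩
    · rw [Finset.disjoint_left]
      intro n hn1 hn2
      obtain ⟨j, hj, rfl⟩ := mem_image.1 hn2
      exact hf2 j hj hn1
  have h5 := hmax (insert p D) (by
    rw [mem_filter]
    refine ⟨mem_univ _, ?_⟩
    rw [card_insert_of_notMem hp, add_mul, one_mul]
    have := hD.2
    omega)
  rw [card_insert_of_notMem hp] at h5
  omega

end Pool.Agent.K3h46.MU
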