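import Pool.Agent.K3h46.MU.Slopes

/-!
# Sets which contain many progressions for every common difference
-/

set_option autoImplicit false

open Finset

namespace Pool.Agent.K3h46.MU

/-- the first terms of the `k`-term progressions in `T` with common difference `d` -/
def starts (k : ℕ) (T : Finset ℤ) (d : ℤ) : Finset ℤ :=
  T.filter fun x => ∀ i : ℕ, i < k → x + i * d ∈ T

/-- if `T` contains `m_d` progressions with common difference `d`, then
`∑ m_d ^ (κ - 1) ≤ |T| ^ κ`. -/
theorem prog_moment {S : Finset ℚ} {κ : ℝ} (h1 : 1 < κ) (h2 : κ ≤ 2) (hS : (-1 : ℚ) ∉ S)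
    (h : Bound S κ) : ∃ k : ℕ, 1 ≤ k ∧ ∀ T D : Finset ℤ,
      ∑ d ∈ D, ((starts k T d).card : ℝ) ^ (κ - 1) ≤ (T.card : ℝ) ^ κ := by
  classical
  have hr1 : ∀ r ∈ S, 1 + r ≠ 0 := by
    intro r hr h0
    apply hS
    have : r = -1 := by linarith
    rwa [this] at hr
  set sl : ℚ → ℚ := fun r => 1 / (1 + r) with hsl
  set η : ℕ := ∏ r ∈ S, (sl r).den with hη
  have hη1 : 1 ≤ η := by
    rw [hη]
    exact Finset.one_le_prod' fun r _ => (sl r).den_pos
  have hint : ∀ r ∈ S, ∃ z : ℤ, (z : ℚ) = sl r * η := by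
    intro r hr
    obtain ⟨m, hm⟩ := Finset.dvd_prod_of_mem (fun r => (sl r).den) hr
    refine ⟨(sl r).num * m, ?_⟩
    rw [← hη] at hm
    have h1 : (η : ℚ) = (sl r).den * m := by exact_mod_cast hm
    rw [h1, ← mul_assoc, Rat.mul_den_eq_num]
    push_cast
    ring
  choose! z hz using hint
  set t₀ : ℕ := ∑ r ∈ S, (z r).natAbs with ht₀
  have hle : ∀ r ∈ S, (z r).natAbs ≤ t₀ := fun r hr => by
    rw [ht₀]
    exact Finset.single_le_sum (f := fun r => (z r).natAbs) (fun _ _ => Nat.zero_le _) hr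
  refine ⟨2 * t₀ + 1, by omega, fun T D => ?_⟩
  set k := 2 * t₀ + 1 with hk
  have hterm : ∀ d x : ℤ, x ∈ starts k T d → ∀ c : ℤ, -(t₀ : ℤ) ≤ c → c ≤ t₀ →
      x + (t₀ + c) * d ∈ T := by
    intro d x hx c hc1 hc2
    unfold starts at hx
    rw [mem_filter] at hx
    have := hx.2 ((t₀ : ℤ) + c).toNat (by omega)
    rwa [Int.toNat_of_nonneg (by omega)] at this
  set A : Finset (ℤ × ℤ) := D.biUnion fun d =>
    (starts k T d).image fun x => (x + (t₀ + η) * d, x + t₀ * d) with hA
  have hmemA : ∀ p : ℤ × ℤ, p ∈ A → ∃ d ∈ D, ∃ x ∈ starts k T d,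
      (x + (t₀ + η) * d, x + t₀ * d) = p := by
    intro p hp
    rw [hA, mem_biUnion] at hp
    obtain ⟨d, hd, hp⟩ := hp
    obtain ⟨x, hx, rfl⟩ := mem_image.1 hp
    exact ⟨d, hd, x, hx, rfl⟩
  have hbig : big S A ≤ T.card := by
    unfold big
    apply max_le
    · unfold projInf
      have : A.image (fun p : ℤ × ℤ => (p.2 : ℚ)) ⊆ T.image (fun t : ℤ => (t : ℚ)) := by
        intro q hq
        obtain ⟨p, hp, rfl⟩ := mem_image.1 hq
        obtain ⟨d, hd, x, hx, rfl⟩ := hmemA p hp
        refine mem_image.2 ⟨_, hterm d x hx 0 (by omega) (by omega), ?_⟩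
        simp
      exact (card_le_card this).trans card_image_le
    · apply Finset.sup_le
      intro r hr
      unfold proj
      have : A.image (fun p : ℤ × ℤ => (p.1 : ℚ) + r * (p.2 : ℚ)) ⊆
          T.image (fun t : ℤ => (1 + r) * (t : ℚ)) := by
        intro q hq
        obtain ⟨p, hp, rfl⟩ := mem_image.1 hq
        obtain ⟨d, hd, x, hx, rfl⟩ := hmemA p hp
        have hz1 := hle r hr
        refine mem_image.2 ⟨_, hterm d x hx (z r) (by omega) (by omega), ?_⟩
        have hz2 : (1 + r) * (z r : ℚ) = η := by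
          rw [hz r hr, hsl]
          have := hr1 r hr
          field_simp
        push_cast
        linear_combination (d : ℚ) * hz2
      exact (card_le_card this).trans card_image_le
  have hmom := moment_slopes h1.le h2 h A
  have hrep : ∀ d ∈ D, (starts k T d).card ≤ rep A (η * d) := by
    intro d hd
    unfold rep
    apply Finset.card_le_card_of_injOn (fun x => (x + (t₀ + η) * d, x + t₀ * d))
    · intro x hx
      rw [mem_coe] at hx
      rw [mem_coe, mem_filter]
      refine ⟨?_, by ring⟩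
      rw [hA, mem_biUnion]
      exact ⟨d, hd, mem_image_of_mem _ hx⟩
    · intro x _ y _ hxy
      have := congrArg Prod.snd hxy
      simp only at this
      linarith
  have hη0 : (η : ℤ) ≠ 0 := by exact_mod_cast (by omega : η ≠ 0)
  calc ∑ d ∈ D, ((starts k T d).card : ℝ) ^ (κ - 1)
      = ∑ d ∈ D.filter (fun d => (starts k T d).Nonempty),
          ((starts k T d).card : ℝ) ^ (κ - 1) := by
        symm
        apply Finset.sum_filter_of_ne
        intro d _ hd
        by_contra hcon
        rw [Finset.not_nonempty_iff_eq_empty] at hcon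
        apply hd
        rw [hcon, card_empty, Nat.cast_zero, Real.zero_rpow (by linarith)]
    _ ≤ ∑ d ∈ D.filter (fun d => (starts k T d).Nonempty), (rep A (η * d) : ℝ) ^ (κ - 1) := by
        apply Finset.sum_le_sum
        intro d hd
        exact Real.rpow_le_rpow (Nat.cast_nonneg _)
          (by exact_mod_cast hrep d (mem_filter.1 hd).1) (by linarith)
    _ = ∑ e ∈ (D.filter (fun d => (starts k T d).Nonempty)).image (fun d => (η : ℤ) * d),
          (rep A e : ℝ) ^ (κ - 1) := by
        rw [Finset.sum_image]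
        intro x _ y _ hxy
        exact mul_left_cancel₀ hη0 hxy
    _ ≤ ∑ e ∈ A.image (fun p => p.1 - p.2), (rep A e : ℝ) ^ (κ - 1) := by
        apply Finset.sum_le_sum_of_subset_of_nonneg
        · intro e he
          obtain ⟨d, hd, rfl⟩ := mem_image.1 he
          rw [mem_filter] at hd
          obtain ⟨x, hx⟩ := hd.2
          refine mem_image.2 ⟨(x + (t₀ + η) * d, x + t₀ * d), ?_, by ring⟩
          rw [hA, mem_biUnion]
          exact ⟨d, hd.1, mem_image_of_mem _ hx⟩
        · intro _ _ _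
          positivity
    _ ≤ (big S A : ℝ) ^ κ := hmom
    _ ≤ (T.card : ℝ) ^ κ := by
        apply Real.rpow_le_rpow (Nat.cast_nonneg _) (by exact_mod_cast hbig) (by linarith)

end Pool.Agent.K3h46.MU
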