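import Pool.Agent.K3h46.MU.Count

/-!
# Choices of residue classes with a small union: asymptotic form
-/

set_option autoImplicit false

open Finset Filter Topology

namespace Pool.Agent.K3h46.MU

open Pool.Agent.R416.CV Pool.Agent.H170R2.PC

theorem two_pow_le (n : ℕ) : (2 : ℝ) ^ n ≤ Real.exp n := by
  have : (2 : ℝ) ≤ Real.exp 1 := by
    have := Real.add_one_le_exp (1 : ℝ); linarith
  calc (2 : ℝ) ^ n ≤ (Real.exp 1) ^ n := by gcongr
    _ = Real.exp n := by rw [← Real.exp_nat_mul, mul_one]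

theorem choices_ge {α : ℝ} {N : ℕ} (hN : 1 ≤ N) :
    Real.exp ((PD α N).card * (α * Real.log N)) ≤ (numChoices α N : ℝ) := by
  have hN0 : (0 : ℝ) < N := by exact_mod_cast hN
  rw [numChoices_eq, Real.exp_nat_mul]
  push_cast
  rw [← Finset.prod_const]
  apply Finset.prod_le_prod
  · intro p _; positivity
  · intro p hp
    have : Real.exp (α * Real.log N) = (N : ℝ) ^ α := by
      rw [Real.rpow_def_of_pos hN0, mul_comm]
    rw [this]
    exact (mem_PD.1 hp).2.1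

theorem choices_le {α : ℝ} {N : ℕ} (hN : 1 ≤ N) :
    (numChoices α N : ℝ) ≤ Real.exp ((PD α N).card * (Real.log 2 + α * Real.log N)) := by
  have hN0 : (0 : ℝ) < N := by exact_mod_cast hN
  rw [numChoices_eq, Real.exp_nat_mul]
  push_cast
  rw [← Finset.prod_const]
  apply Finset.prod_le_prod
  · intro p _; positivity
  · intro p hp
    have : Real.exp (Real.log 2 + α * Real.log N) = 2 * (N : ℝ) ^ α := by
      rw [Real.exp_add, Real.exp_log (by norm_num), Real.rpow_def_of_pos hN0, mul_comm α]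
    rw [this]
    exact (mem_PD.1 hp).2.2.le

theorem main_small {κ : ℝ} (h1 : 1 < κ) (h2 : κ ≤ 2)
    (hatt : ∃ S : Finset ℚ, (-1 : ℚ) ∉ S ∧ Bound S κ) {α ε η : ℝ} (hα : 1 / 2 < α) (hα1 : α < 1)
    (hε : 0 < ε) (hη : 0 < η) : ∃ N₀ : ℕ, ∀ N : ℕ, N₀ ≤ N →
      (numSmall α N ((N : ℝ) ^ (1 - ε)) : ℝ) ≤
        (numChoices α N : ℝ) ^ (max 0 (1 - κ / (κ - 1) * ε / α) + η) := by
  obtain ⟨S, hS, hB⟩ := hatt
  obtain ⟨k, hk1, hprog⟩ := prog_moment h1 h2 hS hB
  have hκ : 0 < κ - 1 := by linarith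
  have hα0 : 0 < α := by linarith
  have hk1r : (1 : ℝ) ≤ k := by exact_mod_cast hk1
  have hlog : Tendsto (fun N : ℕ => Real.log (N : ℝ)) atTop atTop :=
    Real.tendsto_log_atTop.comp tendsto_natCast_atTop_atTop
  obtain ⟨c₀, hc₀⟩ : ∃ c₀, c₀ = κ * Real.log (12 * k) := ⟨_, rfl⟩
  have hc₀0 : 0 ≤ c₀ := by
    rw [hc₀]
    apply mul_nonneg (by linarith)
    apply Real.log_nonneg
    linarith
  -- eventual inequalities
  have hev1 : ∀ᶠ ℓ : ℝ in atTop, 3 + (2 + c₀ + Real.log (4 * ℓ)) / (κ - 1) ≤ α * η * ℓ := by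
    have ho := Real.isLittleO_log_id_atTop.bound (show 0 < α * η * (κ - 1) / 8 by positivity)
    have h4 : Tendsto (fun ℓ : ℝ => 4 * ℓ) atTop atTop :=
      tendsto_id.const_mul_atTop (by norm_num)
    filter_upwards [h4.eventually ho, eventually_ge_atTop 1,
      eventually_ge_atTop ((3 * (κ - 1) + 2 + c₀) / (α * η * (κ - 1) / 2))] with ℓ a1 a2 a3
    rw [div_le_iff₀ (by positivity)] at a3
    have a4 : Real.log (4 * ℓ) ≤ α * η * (κ - 1) / 8 * (4 * ℓ) := by
      refine (le_abs_self _).trans ?_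
      rw [Real.norm_eq_abs, id, Real.norm_of_nonneg (by linarith)] at a1
      exact a1
    rw [← le_sub_iff_add_le', div_le_iff₀ hκ]
    nlinarith
  have hev2 : ∀ᶠ ℓ : ℝ in atTop, 96 * k * ℓ ^ 2 * Real.exp (-(ε * ℓ)) ≤ 1 := by
    have h3 := Real.tendsto_pow_mul_exp_neg_atTop_nhds_zero 2
    have h4 : Tendsto (fun ℓ : ℝ => ε * ℓ) atTop atTop := tendsto_id.const_mul_atTop hε
    have h5 := h3.comp h4
    have h6 := h5.eventually (gt_mem_nhds (show (0 : ℝ) < ε ^ 2 / (96 * k) by positivity))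
    filter_upwards [h6] with ℓ a1
    simp only [Function.comp] at a1
    rw [lt_div_iff₀ (by positivity), mul_pow] at a1
    have a2 : ε ^ 2 * (96 * k * ℓ ^ 2 * Real.exp (-(ε * ℓ))) ≤ ε ^ 2 * 1 := by
      linarith
    exact le_of_mul_le_mul_left a2 (by positivity)
  have hev3 : ∀ᶠ N : ℕ in atTop, 2 * Real.log N ≤ (N : ℝ) ^ (2 * α - 1) := by
    have ho := (isLittleO_log_rpow_atTop (show 0 < 2 * α - 1 by linarith)).bound
      (show (0 : ℝ) < 1 / 2 by norm_num)
    filter_upwards [tendsto_natCast_atTop_atTop.eventually ho] with N hN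
    rw [Real.norm_eq_abs, Real.norm_of_nonneg (by positivity)] at hN
    have := le_abs_self (Real.log (N : ℝ))
    linarith
  have hev := (((ev_primes hα0 hα1).and (ev_const (6 * k) (show 0 < 1 - α by linarith))).and
    ((hlog.eventually hev1).and (hlog.eventually hev2))).and (hev3.and
    ((hlog.eventually (eventually_ge_atTop 1)).and (eventually_ge_atTop 1)))
  obtain ⟨N₀, hN₀⟩ := eventually_atTop.1 hev
  refine ⟨N₀, fun N hN => ?_⟩
  obtain ⟨⟨⟨hpr, h6k⟩, hbig, hexp⟩, hJK, hl1, hN1⟩ := hN₀ N hN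
  have hN0 : (0 : ℝ) < N := by exact_mod_cast hN1
  obtain ⟨ℓ, hℓ⟩ : ∃ ℓ, ℓ = Real.log N := ⟨_, rfl⟩
  rw [← hℓ] at hpr hbig hexp hl1 hJK
  have hℓ0 : 0 < ℓ := by linarith
  have hNe : (N : ℝ) = Real.exp ℓ := by rw [hℓ, Real.exp_log hN0]
  have hNp : ∀ s : ℝ, (N : ℝ) ^ s = Real.exp (s * ℓ) := by
    intro s
    rw [Real.rpow_def_of_pos hN0, ← hℓ, mul_comm]
  obtain ⟨L, hL⟩ : ∃ L, L = (N : ℝ) ^ α := ⟨_, rfl⟩
  have hLe : L = Real.exp (α * ℓ) := by rw [hL, hNp]
  have hL1 : 1 ≤ L := by rw [hLe]; exact Real.one_le_exp (by positivity)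
  have hLN : 6 * k * L ≤ N := by
    rw [hL]
    calc 6 * k * (N : ℝ) ^ α ≤ (N : ℝ) ^ (1 - α) * (N : ℝ) ^ α := by gcongr
      _ = N := by rw [← Real.rpow_add hN0]; simp
  have h2LN : 2 * L ≤ N := by nlinarith
  obtain ⟨K, hK⟩ : ∃ K, K = (PD α N).card := ⟨_, rfl⟩
  rw [← hK, ← hL] at hpr
  have hK0 : (0 : ℝ) ≤ K := Nat.cast_nonneg _
  -- the windows
  obtain ⟨W, hW⟩ : ∃ W, W = k * ⌈2 * L⌉₊ := ⟨_, rfl⟩
  have hW1 : (W : ℝ) ≤ 3 * k * L := by
    rw [hW]
    push_cast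
    have := Nat.ceil_lt_add_one (show 0 ≤ 2 * L by positivity)
    nlinarith
  have hW2 : 2 * L ≤ W := by
    rw [hW]
    push_cast
    have := Nat.le_ceil (2 * L)
    nlinarith
  have hW0 : (0 : ℝ) < W := by linarith
  have hW0' : 0 < W := by exact_mod_cast hW0
  obtain ⟨J, hJ⟩ : ∃ J, J = N / W := ⟨_, rfl⟩
  have hJN : J * W ≤ N := by rw [hJ]; exact Nat.div_mul_le_self N W
  have hJlow : (N : ℝ) / (6 * k * L) ≤ J := by
    have a1 : (N : ℝ) < (J + 1) * W := by
      have := Nat.lt_mul_div_succ N hW0'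
      rw [← hJ] at this
      have a2 : N < (J + 1) * W := by rw [mul_comm]; exact this
      exact_mod_cast a2
    have a2 : (N : ℝ) / W < J + 1 := by rwa [div_lt_iff₀ hW0]
    have a3 : 2 ≤ (N : ℝ) / W := by
      rw [le_div_iff₀ hW0]; linarith
    have a4 : (N : ℝ) / (6 * k * L) ≤ (N : ℝ) / W / 2 := by
      rw [div_div]
      apply div_le_div_of_nonneg_left hN0.le (by positivity)
      linarith
    linarith
  have hJ0r : (0 : ℝ) < J := lt_of_lt_of_le (by positivity) hJlow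
  have hJ0 : 0 < J := by exact_mod_cast hJ0r
  have hJup : (J : ℝ) ≤ K := by
    have a1 : (J : ℝ) * (2 * L) ≤ N := by
      calc (J : ℝ) * (2 * L) ≤ J * W := by gcongr
        _ ≤ N := by exact_mod_cast hJN
    have a2 : 2 * ℓ * N ≤ L ^ 2 := by
      have : L ^ 2 = (N : ℝ) ^ (2 * α - 1) * N := by
        rw [hLe, hNp, ← Real.exp_nat_mul]
        nth_rewrite 1 [hNe]
        rw [← Real.exp_add]
        congr 1
        push_cast
        ring
      rw [this]
      gcongr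
    have a3 : (J : ℝ) * (2 * L) * (2 * ℓ) ≤ K * (2 * L) * (2 * ℓ) := by
      calc (J : ℝ) * (2 * L) * (2 * ℓ) ≤ N * (2 * ℓ) := by gcongr
        _ ≤ L ^ 2 := by linarith
        _ = L * L := sq L
        _ ≤ 4 * (K * ℓ) * L := by gcongr
        _ = _ := by ring
    have a4 : 0 < (2 * L) * (2 * ℓ) := by positivity
    have a5 : (J : ℝ) * ((2 * L) * (2 * ℓ)) ≤ K * ((2 * L) * (2 * ℓ)) := by linarith
    exact le_of_mul_le_mul_right a5 a4
  obtain ⟨X, hX⟩ : ∃ X, X = (N : ℝ) ^ (1 - ε) := ⟨_, rfl⟩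
  have hX0 : 0 < X := by rw [hX]; positivity
  have hXJ : X / J ≤ 6 * k * L * Real.exp (-(ε * ℓ)) := by
    rw [div_le_iff₀ hJ0r]
    have a1 : (N : ℝ) ≤ J * (6 * k * L) := by rwa [div_le_iff₀ (by positivity)] at hJlow
    have a2 : X = N * Real.exp (-(ε * ℓ)) := by
      rw [hX, hNp]
      nth_rewrite 1 [hNe]
      rw [← Real.exp_add]
      congr 1
      ring
    rw [a2]
    calc N * Real.exp (-(ε * ℓ)) ≤ J * (6 * k * L) * Real.exp (-(ε * ℓ)) := by gcongr
      _ = _ := by ring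
  obtain ⟨d, hd⟩ : ∃ d, d = ⌊4 * X / J⌋₊ := ⟨_, rfl⟩
  have hd1 : 4 * X < J * (d + 1) := by
    have := Nat.lt_floor_add_one (4 * X / J)
    rw [← hd, div_lt_iff₀ hJ0r] at this
    linarith
  have hd2 : (d : ℝ) * ℓ ≤ K := by
    have a1 : (d : ℝ) ≤ 4 * X / J := by rw [hd]; exact Nat.floor_le (by positivity)
    have a2 : (d : ℝ) ≤ 24 * k * L * Real.exp (-(ε * ℓ)) := by
      have : 4 * X / J = 4 * (X / J) := by ring
      rw [this] at a1
      linarith
    calc (d : ℝ) * ℓ ≤ 24 * k * L * Real.exp (-(ε * ℓ)) * ℓ := by gcongr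
      _ ≤ 24 * k * (4 * (K * ℓ)) * Real.exp (-(ε * ℓ)) * ℓ := by gcongr
      _ = K * (96 * k * ℓ ^ 2 * Real.exp (-(ε * ℓ))) := by ring
      _ ≤ K * 1 := by gcongr
      _ = K := mul_one _
  -- the parameter l
  obtain ⟨m, hm⟩ : ∃ m, m = max 0 (κ * α - κ * ε - α) * ℓ + (c₀ + Real.log (4 * ℓ)) := ⟨_, rfl⟩
  have hlog4 : 0 ≤ Real.log (4 * ℓ) := Real.log_nonneg (by linarith)
  have hm0 : 0 ≤ m := by
    rw [hm]
    have : 0 ≤ max 0 (κ * α - κ * ε - α) := le_max_left _ _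
    positivity
  have hcount := count2 h1 h2 hk1 hprog (PD α N) (fun p hp => (mem_PD.1 hp).1.pos)
    (W := W) (N := N) (J := J) (fun p hp => by
      rw [hW]
      apply Nat.mul_le_mul_left
      have := (mem_PD.1 hp).2.2
      rw [← hL] at this
      exact_mod_cast this.le.trans (Nat.le_ceil _)) hJN hJ0 (L := L)
    (fun p hp => by rw [hL]; exact (mem_PD.1 hp).2.2.le) (by linarith) hX0 d hd1
    (l := Real.exp m) (Real.one_le_exp hm0)
  rw [← hK] at hcount
  have hE : 2 * (2 * X / J) ^ κ / Real.exp m ≤ 2 * K := by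
    have a1 : (2 * X / J) ^ κ ≤ Real.exp (c₀ + κ * (α * ℓ - ε * ℓ)) := by
      have e1 : 2 * X / J ≤ Real.exp (Real.log (12 * k) + (α * ℓ - ε * ℓ)) := by
        rw [Real.exp_add, Real.exp_log (by positivity), sub_eq_add_neg, Real.exp_add, ← hLe]
        have : 2 * X / J = 2 * (X / J) := by ring
        rw [this]
        linarith
      calc (2 * X / J) ^ κ ≤ (Real.exp (Real.log (12 * k) + (α * ℓ - ε * ℓ))) ^ κ :=
            Real.rpow_le_rpow (by positivity) e1 (by linarith)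
        _ = Real.exp (c₀ + κ * (α * ℓ - ε * ℓ)) := by
            rw [← Real.exp_mul, hc₀]
            congr 1
            ring
    have a2 : Real.exp (c₀ + κ * (α * ℓ - ε * ℓ)) ≤ L / (4 * ℓ) * Real.exp m := by
      have e1 : L / (4 * ℓ) = Real.exp (α * ℓ - Real.log (4 * ℓ)) := by
        rw [Real.exp_sub, Real.exp_log (by positivity), ← hLe]
      rw [e1, ← Real.exp_add]
      apply Real.exp_le_exp.2
      rw [hm]
      have : (κ * α - κ * ε - α) * ℓ ≤ max 0 (κ * α - κ * ε - α) * ℓ := by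
        apply mul_le_mul_of_nonneg_right (le_max_right _ _) hℓ0.le
      nlinarith
    have a3 : L / (4 * ℓ) ≤ K := by
      rw [div_le_iff₀ (by positivity)]
      linarith
    rw [mul_div_assoc]
    apply mul_le_mul_of_nonneg_left _ (by norm_num)
    rw [div_le_iff₀ (Real.exp_pos m)]
    calc (2 * X / J) ^ κ ≤ _ := a1
      _ ≤ L / (4 * ℓ) * Real.exp m := a2
      _ ≤ K * Real.exp m := by gcongr
  have hup : (2 : ℝ) ^ J * 2 ^ K * (2 * L) ^ d *
      ((Real.exp m) ^ K * Real.exp (2 * (2 * X / J) ^ κ / Real.exp m)) ^ (1 / (κ - 1)) ≤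
      Real.exp (K + K + K + (K * m + 2 * K) * (1 / (κ - 1))) := by
    rw [Real.exp_add, Real.exp_add, Real.exp_add]
    have b1 : (2 : ℝ) ^ J ≤ Real.exp K := (two_pow_le J).trans (Real.exp_le_exp.2 hJup)
    have b2 : (2 : ℝ) ^ K ≤ Real.exp K := two_pow_le K
    have b3 : (2 * L) ^ d ≤ Real.exp K := by
      calc (2 * L) ^ d ≤ (Real.exp ℓ) ^ d := by
            rw [← hNe]
            apply pow_le_pow_left₀ (by positivity) h2LN
        _ = Real.exp (d * ℓ) := by rw [← Real.exp_nat_mul]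
        _ ≤ _ := Real.exp_le_exp.2 hd2
    have b4 : ((Real.exp m) ^ K * Real.exp (2 * (2 * X / J) ^ κ / Real.exp m)) ^ (1 / (κ - 1)) ≤
        Real.exp ((K * m + 2 * K) * (1 / (κ - 1))) := by
      rw [Real.exp_mul]
      apply Real.rpow_le_rpow (by positivity) _ (by positivity)
      rw [Real.exp_add, ← Real.exp_nat_mul]
      gcongr
    have hLd : 0 ≤ (2 * L) ^ d := by positivity
    gcongr
  refine (Nat.cast_le.2 (numSmall_le α N ((N : ℝ) ^ (1 - ε)))).trans ?_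
  rw [← hX]
  refine hcount.trans (hup.trans ?_)
  -- comparison with the number of all choices
  obtain ⟨θ, hθ⟩ : ∃ θ, θ = max 0 (1 - κ / (κ - 1) * ε / α) + η := ⟨_, rfl⟩
  rw [← hθ]
  have hθ0 : 0 ≤ θ := by
    rw [hθ]
    have := le_max_left 0 (1 - κ / (κ - 1) * ε / α)
    linarith
  have c1 : Real.exp (K * (α * ℓ) * θ) ≤ (numChoices α N : ℝ) ^ θ := by
    rw [Real.exp_mul]
    apply Real.rpow_le_rpow (Real.exp_pos _).le _ hθ0
    have := choices_ge (α := α) hN1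
    rw [← hK, ← hℓ] at this
    exact this
  refine le_trans (Real.exp_le_exp.2 ?_) c1
  have c2 : max 0 (κ * α - κ * ε - α) * ℓ / (κ - 1) ≤
      α * ℓ * max 0 (1 - κ / (κ - 1) * ε / α) := by
    rcases le_total (κ * α - κ * ε - α) 0 with h | h
    · rw [max_eq_left h, zero_mul, zero_div]
      have := le_max_left 0 (1 - κ / (κ - 1) * ε / α)
      positivity
    · rw [max_eq_right h]
      have e1 : (κ * α - κ * ε - α) * ℓ / (κ - 1) = α * ℓ * (1 - κ / (κ - 1) * ε / α) := by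
        field_simp
        ring
      rw [e1]
      apply mul_le_mul_of_nonneg_left (le_max_right _ _) (by positivity)
  have c3 : K + K + K + (K * m + 2 * K) * (1 / (κ - 1)) =
      K * (max 0 (κ * α - κ * ε - α) * ℓ / (κ - 1) +
        (3 + (2 + c₀ + Real.log (4 * ℓ)) / (κ - 1))) := by
    rw [hm]
    field_simp
    ring
  rw [c3]
  have c4 : (K : ℝ) * (α * ℓ) * θ = K * (α * ℓ * max 0 (1 - κ / (κ - 1) * ε / α) + α * η * ℓ) := by
    rw [hθ]; ring
  rw [c4]
  apply mul_le_mul_of_nonneg_left _ hK0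
  linarith

end Pool.Agent.K3h46.MU
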