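import Pool.Agent.K3h46.MU.Windows

/-!
# Counting the choices with a small union
-/

set_option autoImplicit false

open Finset

namespace Pool.Agent.K3h46.MU

open Pool.Agent.R416.CV

/-- most windows contain few elements of a small set -/
theorem good_windows {N W J : ℕ} (hJ : J * W ≤ N) (U : Finset ℕ) {X : ℝ} (hX : 0 < X)
    (hU : (U.card : ℝ) ≤ X) (hJ0 : 0 < J) :
    (J : ℝ) ≤ 2 * (((range J).filter fun j => ((U ∩ win W j).card : ℝ) * J ≤ 2 * X).card : ℝ) := by
  classical
  obtain ⟨G, hG⟩ : ∃ G, G = (range J).filter fun j => ((U ∩ win W j).card : ℝ) * J ≤ 2 * X :=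
    ⟨_, rfl⟩
  obtain ⟨H, hH⟩ : ∃ H, H = (range J).filter fun j => ¬ ((U ∩ win W j).card : ℝ) * J ≤ 2 * X :=
    ⟨_, rfl⟩
  rw [← hG]
  have h1 : G.card + H.card = J := by
    rw [hG, hH, Finset.card_filter_add_card_filter_not, card_range]
  have h2 : ∑ j ∈ H, (U ∩ win W j).card ≤ U.card := by
    rw [← Finset.card_biUnion]
    · apply Finset.card_le_card
      intro n hn
      rw [mem_biUnion] at hn
      obtain ⟨j, _, hn⟩ := hn
      exact (mem_inter.1 hn).1
    · intro i _ j _ hij
      exact (win_disj hij).mono inter_subset_right inter_subset_right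
  have h3 : (H.card : ℝ) * (2 * X) ≤ X * J := by
    calc (H.card : ℝ) * (2 * X) = ∑ j ∈ H, 2 * X := by rw [Finset.sum_const, nsmul_eq_mul]
      _ ≤ ∑ j ∈ H, ((U ∩ win W j).card : ℝ) * J := by
          apply Finset.sum_le_sum
          intro j hj
          rw [hH, mem_filter] at hj
          exact (not_le.1 hj.2).le
      _ = (∑ j ∈ H, ((U ∩ win W j).card : ℝ)) * J := by rw [Finset.sum_mul]
      _ ≤ X * J := by
          apply mul_le_mul_of_nonneg_right _ (Nat.cast_nonneg _)
          refine le_trans ?_ hU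
          exact_mod_cast h2
  have h4 : 2 * (H.card : ℝ) ≤ J := by
    have : X * (2 * (H.card : ℝ)) ≤ X * J := by linarith
    exact le_of_mul_le_mul_left this hX
  have h5 : (G.card : ℝ) + H.card = J := by exact_mod_cast h1
  linarith

/-- **Counting the choices with a small union**: the moment inequality in the windows. -/
theorem count2 {k W N J : ℕ} {κ : ℝ} (h1 : 1 < κ) (h2 : κ ≤ 2) (hk1 : 1 ≤ k)
    (hprog : ∀ T D : Finset ℤ, ∑ d ∈ D, ((starts k T d).card : ℝ) ^ (κ - 1) ≤ (T.card : ℝ) ^ κ)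
    (P : Finset ℕ) (hP : ∀ p ∈ P, 0 < p) (hW : ∀ p ∈ P, k * p ≤ W) (hJN : J * W ≤ N)
    (hJ0 : 0 < J) {L : ℝ} (hL : ∀ p ∈ P, (p : ℝ) ≤ 2 * L) (hL1 : 1 ≤ 2 * L)
    {X : ℝ} (hX : 0 < X) (d : ℕ) (hd : 4 * X < J * (d + 1)) {l : ℝ} (hl : 1 ≤ l) :
    ((bad P N X).card : ℝ) ≤ 2 ^ J * 2 ^ P.card * (2 * L) ^ d *
      (l ^ P.card * Real.exp (2 * (2 * X / J) ^ κ / l)) ^ (1 / (κ - 1)) := by
  classical
  have hκ : 0 < κ - 1 := by linarith
  have hJr : (0 : ℝ) < J := by exact_mod_cast hJ0
  obtain ⟨Y, hY⟩ : ∃ Y, Y = 2 * X / J := ⟨_, rfl⟩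
  rw [← hY]
  set ι := {p // p ∈ P} with hι
  obtain ⟨B, hB⟩ : ∃ B, B = (l ^ P.card * Real.exp (2 * Y ^ κ / l)) ^ (1 / (κ - 1)) := ⟨_, rfl⟩
  rw [← hB]
  have hB0 : 0 ≤ B := by rw [hB]; positivity
  have hcardι : Fintype.card ι = P.card := Fintype.card_coe P
  obtain ⟨Bb, hBb⟩ : ∃ Bb : Finset ℕ → Finset ι → Finset (ι → ℕ), ∀ G D, Bb G D =
    (Fintype.piFinset (fun p : ι => if p ∈ D then range p.1 else {0})).filter
      (fun b => ∀ j ∈ G, ((CC k W G D b ∩ win W j).card : ℝ) ≤ Y) := ⟨_, fun _ _ => rfl⟩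
  obtain ⟨F, hF⟩ : ∃ F : Finset ℕ → Finset ι → (ι → ℕ) → Finset (ι → ℕ), ∀ G D b, F G D b =
    Fintype.piFinset (fun p : ι => if p ∈ D then {b p} else richG k W G p.1 (CC k W G D b)) :=
    ⟨_, fun _ _ _ => rfl⟩
  have hsub : bad P N X ⊆ ((range J).powerset.filter fun G => G.Nonempty).biUnion fun G =>
      ((univ : Finset (Finset ι)).filter (fun D => D.card ≤ d)).biUnion
      (fun D => (Bb G D).biUnion (fun b => F G D b)) := by
    intro a ha
    rw [bad, mem_filter, Fintype.mem_piFinset] at ha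
    obtain ⟨ha1, ha2⟩ := ha
    have ha1' : ∀ p : ι, a p < p.1 := fun p => mem_range.1 (ha1 p)
    set G := (range J).filter fun j => ((cov N univ a ∩ win W j).card : ℝ) * J ≤ 2 * X with hG
    have hGsub : G ⊆ range J := filter_subset _ _
    have hGc := good_windows hJN (cov N univ a) hX ha2 hJ0
    rw [← hG] at hGc
    have hG0 : (0 : ℝ) < G.card := by linarith
    have hGne : G.Nonempty := Finset.card_pos.1 (by exact_mod_cast hG0)
    obtain ⟨D, hD1, hD2⟩ := greedy2 (G := G) hP hW a ha1'
    have hCsub := CC_sub hGsub hJN hP hW D a ha1'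
    have hCX : ((CC k W G D a).card : ℝ) ≤ X :=
      le_trans (by exact_mod_cast card_le_card hCsub) ha2
    have hDd : D.card ≤ d := by
      by_contra hcon
      push Not at hcon
      have h3 : ((d : ℝ) + 1) ≤ D.card := by exact_mod_cast hcon
      have h4 : (D.card : ℝ) * G.card ≤ 2 * X := by
        have : (D.card : ℝ) * G.card ≤ 2 * (CC k W G D a).card := by exact_mod_cast hD1
        linarith
      nlinarith
    set b : ι → ℕ := fun p => if p ∈ D then a p else 0 with hb
    have hab : CC k W G D b = CC k W G D a := CC_congr (fun p hp => by rw [hb]; simp [hp])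
    rw [mem_biUnion]
    refine ⟨G, ?_, ?_⟩
    · rw [mem_filter, mem_powerset]
      exact ⟨hGsub, hGne⟩
    rw [mem_biUnion]
    refine ⟨D, by simpa using hDd, ?_⟩
    rw [mem_biUnion]
    refine ⟨b, ?_, ?_⟩
    · rw [hBb, mem_filter, Fintype.mem_piFinset]
      refine ⟨fun p => ?_, ?_⟩
      · by_cases hp : p ∈ D
        · simp only [hp, if_true, hb]
          exact ha1 p
        · simp [hp, hb]
      · rw [hab]
        intro j hj
        rw [hG, mem_filter] at hj
        rw [hY, le_div_iff₀ hJr]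
        refine le_trans ?_ hj.2
        apply mul_le_mul_of_nonneg_right _ hJr.le
        exact_mod_cast card_le_card (Finset.inter_subset_inter_right hCsub)
    · rw [hF, Fintype.mem_piFinset]
      intro p
      by_cases hp : p ∈ D
      · simp [hp, hb]
      · simp only [hp, if_false]
        rw [hab]
        exact hD2 p hp
  have hFcard : ∀ G ∈ ((range J).powerset.filter fun G => G.Nonempty), ∀ D : Finset ι,
      ∀ b ∈ Bb G D, ((F G D b).card : ℝ) ≤ B := by
    intro G hG D b hb
    rw [mem_filter] at hG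
    rw [hBb, mem_filter] at hb
    have hr := rich_moment h1 h2 hk1 hprog P G (CC k W G D b) hP hW hG.2 Y hb.2
    have hr2 : ∑ p : ι, ((richG k W G p.1 (CC k W G D b)).card : ℝ) ^ (κ - 1) ≤ 2 * Y ^ κ := by
      have e1 : ∑ p : ι, ((richG k W G p.1 (CC k W G D b)).card : ℝ) ^ (κ - 1) =
          ∑ p ∈ P, ((richG k W G p (CC k W G D b)).card : ℝ) ^ (κ - 1) :=
        sum_coe_sort P (fun p : ℕ => ((richG k W G p (CC k W G D b)).card : ℝ) ^ (κ - 1))
      rw [e1]
      exact hr
    have e2 : ((F G D b).card : ℝ) =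
        ∏ p : ι, (if p ∈ D then (1 : ℝ) else
          ((richG k W G p.1 (CC k W G D b)).card : ℝ)) := by
      rw [hF, Fintype.card_piFinset]
      push_cast
      apply prod_congr rfl
      intro p _
      split_ifs <;> simp
    have e3 : ((F G D b).card : ℝ) ^ (κ - 1) ≤ l ^ P.card * Real.exp (2 * Y ^ κ / l) := by
      rw [e2, ← Real.finsetProd_rpow _ _ (fun p _ => by split_ifs <;> positivity)]
      have e4 : ∏ p : ι, (if p ∈ D then (1 : ℝ) else
          ((richG k W G p.1 (CC k W G D b)).card : ℝ)) ^ (κ - 1) =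
          ∏ p : ι, (if p ∈ D then (1 : ℝ) else
          ((richG k W G p.1 (CC k W G D b)).card : ℝ) ^ (κ - 1)) := by
        apply prod_congr rfl
        intro p _
        split_ifs
        · exact Real.one_rpow _
        · rfl
      rw [e4]
      have := prod_bound D (fun p : ι => ((richG k W G p.1 (CC k W G D b)).card : ℝ) ^ (κ - 1))
        (fun _ => by positivity) (l := l) (m := 1) (by linarith) le_rfl (by linarith) hr2
        (d := D.card) le_rfl
      rw [hcardι, one_pow, mul_one] at this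
      exact this
    rw [hB]
    calc ((F G D b).card : ℝ) = (((F G D b).card : ℝ) ^ (κ - 1)) ^ (1 / (κ - 1)) := by
          rw [← Real.rpow_mul (Nat.cast_nonneg _), mul_one_div_cancel hκ.ne', Real.rpow_one]
      _ ≤ _ := Real.rpow_le_rpow (by positivity) e3 (by positivity)
  have hBbcard : ∀ G, ∀ D : Finset ι, D.card ≤ d → ((Bb G D).card : ℝ) ≤ (2 * L) ^ d := by
    intro G D hDd
    have h3 : (Bb G D).card ≤ ∏ p : ι, (if p ∈ D then range p.1 else {0}).card := by
      rw [← Fintype.card_piFinset, hBb]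
      exact card_le_card (filter_subset _ _)
    have h4 : ((Bb G D).card : ℝ) ≤ ∏ p : ι, (if p ∈ D then 2 * L else 1) := by
      refine (Nat.cast_le.2 h3).trans ?_
      push_cast
      apply prod_le_prod
      · intro p _
        exact Nat.cast_nonneg _
      · intro p _
        split_ifs
        · rw [card_range]; exact hL p.1 p.2
        · simp
    rw [prod_ite_mem, univ_inter, prod_const] at h4
    refine h4.trans ?_
    exact pow_le_pow_right₀ hL1 hDd
  have hLd : 0 ≤ (2 * L) ^ d := by
    have : 0 ≤ 2 * L := by linarith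
    positivity
  have h5 : ((bad P N X).card : ℝ) ≤
      ∑ G ∈ (range J).powerset.filter fun G => G.Nonempty,
        ∑ D ∈ (univ : Finset (Finset ι)).filter (fun D => D.card ≤ d), ((2 * L) ^ d * B) := by
    refine (Nat.cast_le.2 (card_le_card hsub)).trans ?_
    refine (Nat.cast_le.2 card_biUnion_le).trans ?_
    push_cast
    apply sum_le_sum
    intro G hG
    refine (Nat.cast_le.2 card_biUnion_le).trans ?_
    push_cast
    apply sum_le_sum
    intro D hD
    rw [mem_filter] at hD
    refine (Nat.cast_le.2 card_biUnion_le).trans ?_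
    push_cast
    calc ∑ b ∈ Bb G D, ((F G D b).card : ℝ) ≤ ∑ b ∈ Bb G D, B := sum_le_sum (hFcard G hG D)
      _ = (Bb G D).card * B := by rw [sum_const, nsmul_eq_mul]
      _ ≤ (2 * L) ^ d * B := mul_le_mul_of_nonneg_right (hBbcard G D hD.2) hB0
  rw [sum_const, sum_const, nsmul_eq_mul, nsmul_eq_mul] at h5
  have h6 : (((univ : Finset (Finset ι)).filter (fun D => D.card ≤ d)).card : ℝ) ≤ 2 ^ P.card := by
    have : ((univ : Finset (Finset ι)).filter (fun D => D.card ≤ d)).card ≤ 2 ^ P.card := by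
      refine (card_le_card (filter_subset _ _)).trans ?_
      rw [card_univ, Fintype.card_finset, hcardι]
    exact_mod_cast this
  have h7 : ((((range J).powerset.filter fun G => G.Nonempty)).card : ℝ) ≤ 2 ^ J := by
    have : (((range J).powerset.filter fun G => G.Nonempty)).card ≤ 2 ^ J := by
      refine (card_le_card (filter_subset _ _)).trans ?_
      rw [card_powerset, card_range]
    exact_mod_cast this
  calc ((bad P N X).card : ℝ) ≤ _ := h5
    _ ≤ 2 ^ J * (2 ^ P.card * ((2 * L) ^ d * B)) := by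
      apply mul_le_mul h7 _ (by positivity) (by positivity)
      apply mul_le_mul_of_nonneg_right h6
      positivity
    _ = _ := by ring

end Pool.Agent.K3h46.MU
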