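import Pool.Agent.W46.KK.Core

/-!
# Random hashing of the sets in a sums-differences inequality

`HB a b κ`: the inequality `|{x - y}| ≤ (max_i |{b_i x + a_i y}|) ^ κ` for finite subsets of `ℤ × ℤ`.
-/

set_option autoImplicit false

open Finset

namespace Pool.Agent.K3h46.MU

/-- the sums-differences inequality with exponent `κ` for the forms `b_i x + a_i y` -/
def HB {ι : Type} (a b : ι → ℤ) (κ : ℝ) : Prop :=
  ∀ (A : Finset (ℤ × ℤ)) (N : ℕ), (∀ i, (A.image (fun p => b i * p.1 + a i * p.2)).card ≤ N) →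
    ((A.image (fun p => p.1 - p.2)).card : ℝ) ≤ (N : ℝ) ^ κ

/-- the form `b x + a y` for vectors -/
def form {n : ℕ} (a b : ℤ) (p : (Fin n → ℤ) × (Fin n → ℤ)) : Fin n → ℤ :=
  fun j => b * p.1 j + a * p.2 j

/-- the difference `x - y` for vectors -/
def dif {n : ℕ} (p : (Fin n → ℤ) × (Fin n → ℤ)) : Fin n → ℤ := fun j => p.1 j - p.2 j

theorem transfer {ι : Type} {a b : ι → ℤ} {κ : ℝ} (h : HB a b κ) {n : ℕ}
    (A : Finset ((Fin n → ℤ) × (Fin n → ℤ))) (N : ℕ)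
    (hN : ∀ i, (A.image (form (a i) (b i))).card ≤ N) :
    ((A.image dif).card : ℝ) ≤ (N : ℝ) ^ κ := by
  classical
  obtain ⟨M, hM⟩ := Pool.Agent.W46.KK.exists_hom (A.image dif)
  set φ : (Fin n → ℤ) → ℤ := fun z => ∑ i, z i * M ^ (i : ℕ) with hφ
  set B : Finset (ℤ × ℤ) := A.image fun p => (φ p.1, φ p.2) with hB
  have hdif : ∀ p : (Fin n → ℤ) × (Fin n → ℤ), φ p.1 - φ p.2 = φ (dif p) := by
    intro p
    simp only [hφ, dif]
    rw [← Finset.sum_sub_distrib]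
    exact Finset.sum_congr rfl fun i _ => by ring
  have hform : ∀ (a b : ℤ) (p : (Fin n → ℤ) × (Fin n → ℤ)),
      b * φ p.1 + a * φ p.2 = φ (form a b p) := by
    intro a b p
    simp only [hφ, form]
    rw [Finset.mul_sum, Finset.mul_sum, ← Finset.sum_add_distrib]
    exact Finset.sum_congr rfl fun i _ => by ring
  have h1 : B.image (fun p => p.1 - p.2) = (A.image dif).image φ := by
    rw [hB, Finset.image_image, Finset.image_image]
    exact Finset.image_congr fun p _ => hdif p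
  have h2 : ((A.image dif).image φ).card = (A.image dif).card :=
    Finset.card_image_of_injOn fun z hz w hw hzw => hM z hz w hw hzw
  have h3 : ∀ i, (B.image (fun p => b i * p.1 + a i * p.2)).card ≤ N := by
    intro i
    have : B.image (fun p => b i * p.1 + a i * p.2) = (A.image (form (a i) (b i))).image φ := by
      rw [hB, Finset.image_image, Finset.image_image]
      exact Finset.image_congr fun p _ => hform _ _ p
    rw [this]
    exact Finset.card_image_le.trans (hN i)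
  have h4 := h B N h3
  rwa [h1, h2] at h4

section hash

variable {ℓ : ℕ} [hℓ : Fact ℓ.Prime] {n : ℕ}

/-- the value of the random functional -/
def dot (c : Fin n → ZMod ℓ) (z : Fin n → ℤ) : ZMod ℓ := ∑ j, c j * (z j : ZMod ℓ)

theorem card_zero (v : Fin n → ZMod ℓ) (hv : v ≠ 0) :
    (univ.filter fun c : Fin n → ZMod ℓ => ∑ j, c j * v j = 0).card * ℓ = ℓ ^ n := by
  classical
  obtain ⟨j0, hj0⟩ : ∃ j, v j ≠ 0 := by
    by_contra hcon
    push Not at hcon
    exact hv (funext hcon)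
  have key : ∀ t : ZMod ℓ, (univ.filter fun c : Fin n → ZMod ℓ => ∑ j, c j * v j = t).card =
      (univ.filter fun c : Fin n → ZMod ℓ => ∑ j, c j * v j = 0).card := by
    intro t
    symm
    refine Finset.card_bij' (fun c _ => c + Pi.single j0 (t / v j0))
      (fun c _ => c - Pi.single j0 (t / v j0)) ?_ ?_ ?_ ?_
    · intro c hc
      rw [mem_filter] at hc ⊢
      refine ⟨mem_univ _, ?_⟩
      simp only [Pi.add_apply, add_mul, Finset.sum_add_distrib, hc.2, zero_add]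
      rw [Finset.sum_eq_single j0]
      · simp [hj0]
      · intro j _ hj
        simp [Pi.single_eq_of_ne hj]
      · intro hj
        exact absurd (mem_univ _) hj
    · intro c hc
      rw [mem_filter] at hc ⊢
      refine ⟨mem_univ _, ?_⟩
      simp only [Pi.sub_apply, sub_mul, Finset.sum_sub_distrib, hc.2]
      rw [Finset.sum_eq_single j0]
      · simp [hj0]
      · intro j _ hj
        simp [Pi.single_eq_of_ne hj]
      · intro hj
        exact absurd (mem_univ _) hj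
    · intro c _
      simp
    · intro c _
      simp
  have h1 : ∑ t : ZMod ℓ, (univ.filter fun c : Fin n → ZMod ℓ => ∑ j, c j * v j = t).card =
      (univ : Finset (Fin n → ZMod ℓ)).card :=
    (Finset.card_eq_sum_card_fiberwise (fun c _ => mem_univ _)).symm
  rw [Finset.sum_congr rfl fun t _ => key t, Finset.sum_const, smul_eq_mul, Finset.card_univ,
    Finset.card_univ, ZMod.card, Fintype.card_fun, ZMod.card, Fintype.card_fin] at h1
  rw [mul_comm]
  exact h1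

/-- number of collisions -/
def coll (P : Finset (Fin n → ℤ)) (c : Fin n → ZMod ℓ) : ℕ :=
  ((P ×ˢ P).filter fun q => dot c q.1 = dot c q.2).card

/-- distinct elements of `P` are distinct modulo `ℓ` -/
def Sep (ℓ : ℕ) {n : ℕ} (P : Finset (Fin n → ℤ)) : Prop :=
  ∀ z ∈ P, ∀ w ∈ P, z ≠ w → (fun j => ((z j - w j : ℤ) : ZMod ℓ)) ≠ 0

theorem sum_coll (P : Finset (Fin n → ℤ)) (hP : Sep ℓ P) :
    (∑ c : Fin n → ZMod ℓ, (coll P c : ℝ)) ≤
      (ℓ : ℝ) ^ n * (P.card + (P.card : ℝ) ^ 2 / ℓ) := by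
  classical
  have hℓ0 : (0 : ℝ) < ℓ := by exact_mod_cast hℓ.out.pos
  have h1 : ∀ c : Fin n → ZMod ℓ, (coll P c : ℝ) =
      ∑ q ∈ P ×ˢ P, (if dot c q.1 = dot c q.2 then (1 : ℝ) else 0) := by
    intro c
    unfold coll
    rw [Finset.sum_boole]
  rw [Finset.sum_congr rfl fun c _ => h1 c, Finset.sum_comm]
  have h2 : ∀ q ∈ P ×ˢ P, (∑ c : Fin n → ZMod ℓ, (if dot c q.1 = dot c q.2 then (1 : ℝ) else 0)) ≤
      (if q.1 = q.2 then (ℓ : ℝ) ^ n else 0) + (ℓ : ℝ) ^ n / ℓ := by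
    intro q hq
    rw [Finset.sum_boole]
    by_cases hqq : q.1 = q.2
    · rw [if_pos hqq]
      have : ((univ.filter fun c : Fin n → ZMod ℓ => dot c q.1 = dot c q.2).card : ℝ) ≤
          (ℓ : ℝ) ^ n := by
        have := Finset.card_filter_le (univ : Finset (Fin n → ZMod ℓ))
          (fun c => dot c q.1 = dot c q.2)
        rw [Finset.card_univ, Fintype.card_fun, ZMod.card, Fintype.card_fin] at this
        exact_mod_cast this
      have h3 : (0 : ℝ) ≤ (ℓ : ℝ) ^ n / ℓ := by positivity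
      linarith
    · rw [if_neg hqq, zero_add]
      rw [mem_product] at hq
      have h3 := card_zero _ (hP _ hq.1 _ hq.2 hqq)
      have h4 : (univ.filter fun c : Fin n → ZMod ℓ => dot c q.1 = dot c q.2) =
          (univ.filter fun c : Fin n → ZMod ℓ =>
            ∑ j, c j * ((q.1 j - q.2 j : ℤ) : ZMod ℓ) = 0) := by
        apply Finset.filter_congr
        intro c _
        unfold dot
        rw [← sub_eq_zero, ← Finset.sum_sub_distrib]
        have : ∀ j, c j * ((q.1 j : ℤ) : ZMod ℓ) - c j * ((q.2 j : ℤ) : ZMod ℓ) =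
            c j * ((q.1 j - q.2 j : ℤ) : ZMod ℓ) := fun j => by push_cast; ring
        rw [Finset.sum_congr rfl fun j _ => this j]
      rw [h4, le_div_iff₀ hℓ0]
      exact_mod_cast h3.le
  refine (Finset.sum_le_sum h2).trans ?_
  rw [Finset.sum_add_distrib, Finset.sum_const, Finset.card_product, nsmul_eq_mul,
    ← Finset.sum_filter, Finset.sum_const, nsmul_eq_mul]
  have h5 : ((P ×ˢ P).filter fun q => q.1 = q.2).card = P.card := by
    have : ((P ×ˢ P).filter fun q => q.1 = q.2) = P.diag := by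
      ext q
      rw [Finset.mem_diag, mem_filter, mem_product]
      constructor
      · rintro ⟨⟨h, _⟩, h'⟩; exact ⟨h, h'⟩
      · rintro ⟨h, h'⟩; exact ⟨⟨h, h' ▸ h⟩, h'⟩
    rw [this, Finset.diag_card]
  rw [h5]
  push_cast
  apply le_of_eq
  ring

/-- the fibres of the functional -/
def fib (P : Finset (Fin n → ℤ)) (c : Fin n → ZMod ℓ) (w : ZMod ℓ) : ℕ :=
  (P.filter fun z => dot c z = w).card

theorem sum_fib (P : Finset (Fin n → ℤ)) (c : Fin n → ZMod ℓ) :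
    ∑ w : ZMod ℓ, (fib P c w : ℝ) = P.card := by
  classical
  have := (Finset.card_eq_sum_card_fiberwise (s := P) (t := (univ : Finset (ZMod ℓ)))
    (f := dot c) (fun z _ => mem_coe.2 (mem_univ _))).symm
  unfold fib
  exact_mod_cast this

theorem sum_fib_sq (P : Finset (Fin n → ℤ)) (c : Fin n → ZMod ℓ) :
    ∑ w : ZMod ℓ, (fib P c w : ℝ) ^ 2 = coll P c := by
  classical
  have h1 : ∀ w : ZMod ℓ, (fib P c w : ℝ) ^ 2 =
      (((P ×ˢ P).filter fun q => dot c q.1 = dot c q.2).filter fun q => dot c q.1 = w).card := by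
    intro w
    unfold fib
    rw [sq, ← Nat.cast_mul, ← Finset.card_product]
    congr 1
    congr 1
    ext q
    simp only [mem_product, mem_filter]
    constructor
    · rintro ⟨⟨h1, h2⟩, h3, h4⟩
      exact ⟨⟨⟨h1, h3⟩, h2.trans h4.symm⟩, h2⟩
    · rintro ⟨⟨⟨h1, h3⟩, h4⟩, h2⟩
      exact ⟨⟨h1, h2⟩, h3, h4 ▸ h2⟩
  rw [Finset.sum_congr rfl fun w _ => h1 w]
  unfold coll
  have := (Finset.card_eq_sum_card_fiberwise
    (s := (P ×ˢ P).filter fun q => dot c q.1 = dot c q.2) (t := (univ : Finset (ZMod ℓ)))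
    (f := fun q => dot c q.1) (fun z _ => mem_coe.2 (mem_univ _))).symm
  exact_mod_cast this

/-- the image of a set of at least `ℓ` elements is large on average -/
theorem sum_image (P : Finset (Fin n → ℤ)) (hP : Sep ℓ P) (hc : ℓ ≤ P.card) :
    (ℓ : ℝ) ^ n * ℓ / 2 ≤ ∑ c : Fin n → ZMod ℓ, ((P.image (dot c)).card : ℝ) := by
  classical
  have hℓ0 : (0 : ℝ) < ℓ := by exact_mod_cast hℓ.out.pos
  have hc' : (ℓ : ℝ) ≤ P.card := by exact_mod_cast hc
  obtain ⟨q, hq⟩ : ∃ q : ℝ, q = P.card := ⟨_, rfl⟩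
  rw [← hq] at hc'
  obtain ⟨t, ht⟩ : ∃ t : ℝ, t = 1 / (1 + q / ℓ) := ⟨_, rfl⟩
  have hq0 : 0 < q := hℓ0.trans_le hc'
  have ht0 : 0 < t := by rw [ht]; positivity
  have h1 : ∀ c : Fin n → ZMod ℓ, 2 * t * q - t ^ 2 * coll P c ≤ ((P.image (dot c)).card : ℝ) := by
    intro c
    have e1 : ∑ w ∈ P.image (dot c), (fib P c w : ℝ) = q := by
      rw [hq, ← sum_fib P c]
      apply Finset.sum_subset (Finset.subset_univ _)
      intro w _ hw
      unfold fib
      rw [Nat.cast_eq_zero, Finset.card_eq_zero, Finset.filter_eq_empty_iff]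
      intro z hz hzw
      exact hw (mem_image.2 ⟨z, hz, hzw⟩)
    have e2 : ∑ w ∈ P.image (dot c), (fib P c w : ℝ) ^ 2 = coll P c := by
      rw [← sum_fib_sq P c]
      apply Finset.sum_subset (Finset.subset_univ _)
      intro w _ hw
      unfold fib
      have : (P.filter fun z => dot c z = w).card = 0 := by
        rw [Finset.card_eq_zero, Finset.filter_eq_empty_iff]
        intro z hz hzw
        exact hw (mem_image.2 ⟨z, hz, hzw⟩)
      rw [this]
      norm_num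
    have e3 : 0 ≤ ∑ w ∈ P.image (dot c), (1 - t * (fib P c w : ℝ)) ^ 2 :=
      Finset.sum_nonneg fun w _ => sq_nonneg _
    have e4 : ∑ w ∈ P.image (dot c), (1 - t * (fib P c w : ℝ)) ^ 2 =
        ((P.image (dot c)).card : ℝ) - 2 * t * q + t ^ 2 * coll P c := by
      rw [← e1, ← e2, Finset.mul_sum, Finset.mul_sum]
      have : ((P.image (dot c)).card : ℝ) = ∑ w ∈ P.image (dot c), (1 : ℝ) := by simp
      rw [this, ← Finset.sum_sub_distrib, ← Finset.sum_add_distrib]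
      exact Finset.sum_congr rfl fun w _ => by ring
    rw [e4] at e3
    linarith
  have h2 := Finset.sum_le_sum fun (c : Fin n → ZMod ℓ) (_ : c ∈ univ) => h1 c
  refine le_trans ?_ h2
  rw [Finset.sum_sub_distrib, Finset.sum_const, Finset.card_univ, Fintype.card_fun, ZMod.card,
    Fintype.card_fin, nsmul_eq_mul, ← Finset.mul_sum]
  have h3 := mul_le_mul_of_nonneg_left (sum_coll P hP) (sq_nonneg t)
  rw [← hq] at h3
  push_cast
  have h4 : (ℓ : ℝ) ^ n * ℓ / 2 ≤ (ℓ : ℝ) ^ n * (2 * t * q) - t ^ 2 * ((ℓ : ℝ) ^ n * (q + q ^ 2 / ℓ)) := by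
    have h5 : (ℓ : ℝ) ^ n * (2 * t * q) - t ^ 2 * ((ℓ : ℝ) ^ n * (q + q ^ 2 / ℓ)) =
        (ℓ : ℝ) ^ n * (q / (1 + q / ℓ)) := by
      rw [ht]
      have : (1 + q / ℓ : ℝ) ≠ 0 := by positivity
      field_simp
      ring
    rw [h5, mul_div_assoc]
    apply mul_le_mul_of_nonneg_left _ (by positivity)
    rw [div_le_div_iff₀ (by norm_num) (by positivity)]
    have : (ℓ : ℝ) * (1 + q / ℓ) = ℓ + q := by field_simp
    rw [this]
    linarith
  linarith

theorem rpow_split {g s κ : ℝ} (hg : 0 ≤ g) (hs : 0 < s) (h1 : 1 ≤ κ) (h2 : κ ≤ 2) :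
    g ^ κ ≤ s ^ (κ - 1) * g + s ^ (κ - 2) * g ^ 2 := by
  rcases hg.eq_or_lt with h0 | h0
  · rw [← h0, Real.zero_rpow (by linarith)]
    simp
  rcases le_total g s with h | h
  · have e : g ^ κ = g ^ (κ - 1) * g := by
      rw [← Real.rpow_add_one h0.ne']; congr 1; ring
    rw [e]
    have : g ^ (κ - 1) ≤ s ^ (κ - 1) := Real.rpow_le_rpow h0.le h (by linarith)
    have h3 : 0 ≤ s ^ (κ - 2) * g ^ 2 := by positivity
    nlinarith
  · have e : g ^ κ = g ^ (κ - 2) * g ^ 2 := by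
      rw [← Real.rpow_natCast g 2, ← Real.rpow_add h0]; congr 1; push_cast; ring
    rw [e]
    have : g ^ (κ - 2) ≤ s ^ (κ - 2) :=
      Real.rpow_le_rpow_of_nonpos hs h (by linarith)
    have h3 : 0 ≤ s ^ (κ - 1) * g := by positivity
    nlinarith [sq_nonneg g]

/-- moments of the fibres -/
theorem sum_fib_rpow (P : Finset (Fin n → ℤ)) (hP : Sep ℓ P) {N : ℕ} (hN : P.card ≤ N)
    (hℓN : ℓ ≤ N) {κ : ℝ} (h1 : 1 ≤ κ) (h2 : κ ≤ 2) :
    ∑ c : Fin n → ZMod ℓ, ∑ w : ZMod ℓ, (fib P c w : ℝ) ^ κ ≤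
      3 * (N : ℝ) ^ κ * (ℓ : ℝ) ^ n * (ℓ : ℝ) ^ (1 - κ) := by
  classical
  have hℓ0 : (0 : ℝ) < ℓ := by exact_mod_cast hℓ.out.pos
  have hN' : (ℓ : ℝ) ≤ N := by exact_mod_cast hℓN
  have hN0 : (0 : ℝ) < N := hℓ0.trans_le hN'
  have hPN : (P.card : ℝ) ≤ N := by exact_mod_cast hN
  obtain ⟨s, hs⟩ : ∃ s : ℝ, s = N / ℓ := ⟨_, rfl⟩
  have hs0 : 0 < s := by rw [hs]; positivity
  have e1 : ∑ c : Fin n → ZMod ℓ, ∑ w : ZMod ℓ, (fib P c w : ℝ) ^ κ ≤
      ∑ c : Fin n → ZMod ℓ, ∑ w : ZMod ℓ,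
        (s ^ (κ - 1) * (fib P c w : ℝ) + s ^ (κ - 2) * (fib P c w : ℝ) ^ 2) :=
    Finset.sum_le_sum fun c _ => Finset.sum_le_sum fun w _ =>
      rpow_split (Nat.cast_nonneg _) hs0 h1 h2
  refine e1.trans ?_
  have e2 : ∀ c : Fin n → ZMod ℓ, ∑ w : ZMod ℓ,
      (s ^ (κ - 1) * (fib P c w : ℝ) + s ^ (κ - 2) * (fib P c w : ℝ) ^ 2) =
      s ^ (κ - 1) * P.card + s ^ (κ - 2) * coll P c := by
    intro c
    rw [Finset.sum_add_distrib, ← Finset.mul_sum, ← Finset.mul_sum, sum_fib, sum_fib_sq]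
  rw [Finset.sum_congr rfl fun c _ => e2 c, Finset.sum_add_distrib, Finset.sum_const,
    Finset.card_univ, Fintype.card_fun, ZMod.card, Fintype.card_fin, nsmul_eq_mul,
    ← Finset.mul_sum]
  push_cast
  have e3 := mul_le_mul_of_nonneg_left (sum_coll P hP) (Real.rpow_nonneg hs0.le (κ - 2))
  have e4 : (P.card : ℝ) + (P.card : ℝ) ^ 2 / ℓ ≤ 2 * N ^ 2 / ℓ := by
    have : (P.card : ℝ) ^ 2 ≤ (N : ℝ) ^ 2 := by
      apply pow_le_pow_left₀ (Nat.cast_nonneg _) hPN
    rw [le_div_iff₀ hℓ0, add_mul, div_mul_cancel₀ _ hℓ0.ne']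
    nlinarith
  have e5 : s ^ (κ - 2) * ((ℓ : ℝ) ^ n * (P.card + (P.card : ℝ) ^ 2 / ℓ)) ≤
      s ^ (κ - 2) * ((ℓ : ℝ) ^ n * (2 * N ^ 2 / ℓ)) := by
    gcongr
  have e6 : (ℓ : ℝ) ^ n * (s ^ (κ - 1) * P.card) ≤ (ℓ : ℝ) ^ n * (s ^ (κ - 1) * N) := by
    gcongr
  have e7 : s ^ (κ - 1) = (N : ℝ) ^ κ * (ℓ : ℝ) ^ (1 - κ) / N := by
    rw [hs, Real.div_rpow hN0.le hℓ0.le, Real.rpow_sub_one hN0.ne',
      show (1 - κ) = -(κ - 1) by ring, Real.rpow_neg hℓ0.le]
    field_simp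
  have e8 : s ^ (κ - 2) = (N : ℝ) ^ κ * (ℓ : ℝ) ^ (1 - κ) / N * (ℓ / N) := by
    rw [show κ - 2 = (κ - 1) - 1 by ring, Real.rpow_sub_one hs0.ne', e7, hs]
    field_simp
  calc _ ≤ (ℓ : ℝ) ^ n * (s ^ (κ - 1) * N) + s ^ (κ - 2) * ((ℓ : ℝ) ^ n * (2 * N ^ 2 / ℓ)) := by
        linarith
    _ = 3 * (N : ℝ) ^ κ * (ℓ : ℝ) ^ n * (ℓ : ℝ) ^ (1 - κ) := by
        rw [e8, e7]
        field_simp
        ring

/-- a nonzero form takes every value equally often -/
theorem sum_form (a b : ZMod ℓ) (hab : ¬ (a = 0 ∧ b = 0)) (F : ZMod ℓ → ℝ) :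
    ∑ u : ZMod ℓ, ∑ v : ZMod ℓ, F (b * v + a * u) = ℓ * ∑ w : ZMod ℓ, F w := by
  classical
  by_cases hb : b = 0
  · have ha : a ≠ 0 := fun h => hab ⟨h, hb⟩
    have : ∀ u : ZMod ℓ, ∑ v : ZMod ℓ, F (b * v + a * u) = ℓ * F (a * u) := by
      intro u
      simp only [hb, zero_mul, zero_add]
      rw [Finset.sum_const, Finset.card_univ, ZMod.card, nsmul_eq_mul]
    rw [Finset.sum_congr rfl fun u _ => this u, ← Finset.mul_sum]
    congr 1
    exact Equiv.sum_comp (Equiv.mulLeft₀ a ha) F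
  · have : ∀ u : ZMod ℓ, ∑ v : ZMod ℓ, F (b * v + a * u) = ∑ w : ZMod ℓ, F w := by
      intro u
      exact Equiv.sum_comp ((Equiv.mulLeft₀ b hb).trans (Equiv.addRight (a * u))) F
    rw [Finset.sum_congr rfl fun u _ => this u, Finset.sum_const, Finset.card_univ, ZMod.card,
      nsmul_eq_mul]

/-- **hashing**: a lower bound `ℓ` for the multiplicity of all differences improves the
sums-differences inequality by the factor `ℓ ^ (κ - 1)`. -/
theorem hash {ι : Type} [Fintype ι] [Nonempty ι] {a b : ι → ℤ} {κ : ℝ} (h : HB a b κ)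
    (h1 : 1 ≤ κ) (h2 : κ ≤ 2) (A : Finset ((Fin n → ℤ) × (Fin n → ℤ))) (N : ℕ)
    (hN : ∀ i, (A.image (form (a i) (b i))).card ≤ N) (hℓN : ℓ ≤ N)
    (hab : ∀ i, ¬ (((a i : ℤ) : ZMod ℓ) = 0 ∧ ((b i : ℤ) : ZMod ℓ) = 0))
    (hsep : ∀ i, Sep ℓ (A.image (form (a i) (b i))))
    (hsepY : Sep ℓ (A.image Prod.snd))
    (hm : ∀ d ∈ A.image dif, ℓ ≤ ((A.filter fun p => dif p = d).image Prod.snd).card) :
    ((A.image dif).card : ℝ) * (ℓ : ℝ) ^ (κ - 1) ≤ 6 * Fintype.card ι * (N : ℝ) ^ κ := by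
  classical
  have hℓ0 : (0 : ℝ) < ℓ := by exact_mod_cast hℓ.out.pos
  -- the pieces
  set Ap : (Fin n → ZMod ℓ) → ZMod ℓ → ZMod ℓ → Finset ((Fin n → ℤ) × (Fin n → ℤ)) :=
    fun c u v => A.filter fun p => dot c p.1 = v ∧ dot c p.2 = u with hAp
  set D := A.image dif with hD
  set Y : (Fin n → ℤ) → Finset (Fin n → ℤ) := fun d => (A.filter fun p => dif p = d).image Prod.snd
    with hY
  -- lower bound
  have hlow : ∀ c : Fin n → ZMod ℓ, ∑ d ∈ D, (((Y d).image (dot c)).card : ℝ) ≤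
      ∑ u : ZMod ℓ, ∑ v : ZMod ℓ, (((Ap c u v).image dif).card : ℝ) := by
    intro c
    have e1 : ∀ u v : ZMod ℓ, (((Ap c u v).image dif).card : ℝ) =
        ∑ d ∈ D, (if d ∈ (Ap c u v).image dif then (1 : ℝ) else 0) := by
      intro u v
      rw [Finset.sum_boole]
      congr 2
      ext d
      rw [mem_filter]
      constructor
      · intro hd
        refine ⟨?_, hd⟩
        exact Finset.image_subset_image (Finset.filter_subset _ _) hd
      · exact fun hd => hd.2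
    rw [Finset.sum_congr rfl fun u _ => Finset.sum_congr rfl fun v _ => e1 u v]
    have e2 : ∑ u : ZMod ℓ, ∑ v : ZMod ℓ, ∑ d ∈ D,
        (if d ∈ (Ap c u v).image dif then (1 : ℝ) else 0) =
        ∑ d ∈ D, ∑ u : ZMod ℓ, ∑ v : ZMod ℓ, (if d ∈ (Ap c u v).image dif then (1 : ℝ) else 0) := by
      rw [Finset.sum_comm]
      rw [Finset.sum_congr rfl fun v _ => Finset.sum_comm (s := (univ : Finset (ZMod ℓ))) (t := D)
        (f := fun u d => (if d ∈ (Ap c u v).image dif then (1 : ℝ) else 0))]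
      rw [Finset.sum_comm]
      refine Finset.sum_congr rfl fun d _ => ?_
      rw [Finset.sum_comm]
    rw [e2]
    refine Finset.sum_le_sum fun d hd => ?_
    have e3 : (((Y d).image (dot c)).card : ℝ) = ∑ u ∈ (Y d).image (dot c), (1 : ℝ) := by simp
    rw [e3]
    refine le_trans ?_ (Finset.sum_le_sum_of_subset_of_nonneg (Finset.subset_univ
      ((Y d).image (dot c))) fun u _ _ => Finset.sum_nonneg fun v _ => by split_ifs <;> norm_num)
    refine Finset.sum_le_sum fun u hu => ?_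
    obtain ⟨y, hy, rfl⟩ := mem_image.1 hu
    obtain ⟨p, hp, rfl⟩ := mem_image.1 hy
    rw [mem_filter] at hp
    have hmem : d ∈ (Ap c (dot c p.2) (dot c p.1)).image dif :=
      mem_image.2 ⟨p, mem_filter.2 ⟨hp.1, rfl, rfl⟩, hp.2⟩
    refine le_trans ?_ (Finset.single_le_sum (f := fun v =>
      (if d ∈ (Ap c (dot c p.2) v).image dif then (1 : ℝ) else 0))
      (fun v _ => by split_ifs <;> norm_num) (mem_univ (dot c p.1)))
    rw [if_pos hmem]
  have hlow2 : (D.card : ℝ) * ((ℓ : ℝ) ^ n * ℓ / 2) ≤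
      ∑ c : Fin n → ZMod ℓ, ∑ u : ZMod ℓ, ∑ v : ZMod ℓ, (((Ap c u v).image dif).card : ℝ) := by
    refine le_trans ?_ (Finset.sum_le_sum fun c _ => hlow c)
    rw [Finset.sum_comm, ← nsmul_eq_mul, ← Finset.sum_const]
    refine Finset.sum_le_sum fun d hd => ?_
    apply sum_image
    · intro z hz w hw hzw
      apply hsepY z _ w _ hzw
      · exact Finset.image_subset_image (Finset.filter_subset _ _) hz
      · exact Finset.image_subset_image (Finset.filter_subset _ _) hw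
    · exact hm d hd
  -- upper bound
  have hup : ∀ (c : Fin n → ZMod ℓ) (u v : ZMod ℓ), (((Ap c u v).image dif).card : ℝ) ≤
      ∑ i, (fib (A.image (form (a i) (b i))) c
        (((b i : ℤ) : ZMod ℓ) * v + ((a i : ℤ) : ZMod ℓ) * u) : ℝ) ^ κ := by
    intro c u v
    set f : ι → ℕ := fun i => ((Ap c u v).image (form (a i) (b i))).card with hf
    have e1 : ((Ap c u v).image dif).card ≤ ((univ.sup f : ℕ) : ℝ) ^ κ :=
      transfer h _ _ fun i => Finset.le_sup (f := f) (mem_univ i)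
    refine e1.trans ?_
    obtain ⟨i, _, hi⟩ := Finset.exists_mem_eq_sup (univ : Finset ι) univ_nonempty f
    rw [hi]
    refine le_trans ?_ (Finset.single_le_sum (f := fun i =>
      (fib (A.image (form (a i) (b i))) c
        (((b i : ℤ) : ZMod ℓ) * v + ((a i : ℤ) : ZMod ℓ) * u) : ℝ) ^ κ)
      (fun i _ => by positivity) (mem_univ i))
    apply Real.rpow_le_rpow (Nat.cast_nonneg _) _ (by linarith)
    rw [Nat.cast_le]
    unfold fib
    apply Finset.card_le_card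
    intro z hz
    obtain ⟨p, hp, rfl⟩ := mem_image.1 hz
    rw [hAp, mem_filter] at hp
    rw [mem_filter]
    refine ⟨mem_image_of_mem _ hp.1, ?_⟩
    rw [← hp.2.1, ← hp.2.2]
    unfold dot form
    rw [Finset.mul_sum, Finset.mul_sum, ← Finset.sum_add_distrib]
    refine Finset.sum_congr rfl fun j _ => ?_
    push_cast
    ring
  have hup2 : ∑ c : Fin n → ZMod ℓ, ∑ u : ZMod ℓ, ∑ v : ZMod ℓ,
      (((Ap c u v).image dif).card : ℝ) ≤
      ∑ i : ι, (ℓ : ℝ) * (3 * (N : ℝ) ^ κ * (ℓ : ℝ) ^ n * (ℓ : ℝ) ^ (1 - κ)) := by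
    refine (Finset.sum_le_sum fun c _ => Finset.sum_le_sum fun u _ => Finset.sum_le_sum fun v _ =>
      hup c u v).trans ?_
    have e1 : ∀ c : Fin n → ZMod ℓ, ∑ u : ZMod ℓ, ∑ v : ZMod ℓ, ∑ i,
        (fib (A.image (form (a i) (b i))) c
          (((b i : ℤ) : ZMod ℓ) * v + ((a i : ℤ) : ZMod ℓ) * u) : ℝ) ^ κ =
        ∑ i, (ℓ : ℝ) * ∑ w : ZMod ℓ, (fib (A.image (form (a i) (b i))) c w : ℝ) ^ κ := by
      intro c
      have e2 : ∀ i, ∑ u : ZMod ℓ, ∑ v : ZMod ℓ, (fib (A.image (form (a i) (b i))) c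
          (((b i : ℤ) : ZMod ℓ) * v + ((a i : ℤ) : ZMod ℓ) * u) : ℝ) ^ κ =
          (ℓ : ℝ) * ∑ w : ZMod ℓ, (fib (A.image (form (a i) (b i))) c w : ℝ) ^ κ := fun i =>
        sum_form _ _ (hab i) fun w => (fib (A.image (form (a i) (b i))) c w : ℝ) ^ κ
      rw [← Finset.sum_congr rfl fun i _ => e2 i]
      rw [Finset.sum_congr rfl fun u _ => Finset.sum_comm]
      rw [Finset.sum_comm]
    rw [Finset.sum_congr rfl fun c _ => e1 c, Finset.sum_comm]
    refine Finset.sum_le_sum fun i _ => ?_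
    rw [← Finset.mul_sum]
    exact mul_le_mul_of_nonneg_left (sum_fib_rpow _ (hsep i) (hN i) hℓN h1 h2) hℓ0.le
  have h3 := hlow2.trans hup2
  rw [Finset.sum_const, Finset.card_univ, nsmul_eq_mul] at h3
  have hp : (0 : ℝ) < (ℓ : ℝ) ^ n * ℓ := by positivity
  have e9 : (ℓ : ℝ) ^ (1 - κ) * (ℓ : ℝ) ^ (κ - 1) = 1 := by
    rw [← Real.rpow_add hℓ0]; simp
  have h4 : (D.card : ℝ) ≤ 6 * Fintype.card ι * (N : ℝ) ^ κ * (ℓ : ℝ) ^ (1 - κ) := by
    have h5 : (D.card : ℝ) * ((ℓ : ℝ) ^ n * ℓ) ≤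
        (6 * Fintype.card ι * (N : ℝ) ^ κ * (ℓ : ℝ) ^ (1 - κ)) * ((ℓ : ℝ) ^ n * ℓ) := by
      nlinarith
    exact le_of_mul_le_mul_right h5 hp
  calc (D.card : ℝ) * (ℓ : ℝ) ^ (κ - 1)
      ≤ 6 * Fintype.card ι * (N : ℝ) ^ κ * (ℓ : ℝ) ^ (1 - κ) * (ℓ : ℝ) ^ (κ - 1) := by
        gcongr
    _ = 6 * Fintype.card ι * (N : ℝ) ^ κ := by rw [mul_assoc, e9, mul_one]

end hash

end Pool.Agent.K3h46.MU
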