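import Pool.Agent.K3h46.MU.Tensor
import Pool.Agent.TH404.AK.Sdc3

/-!
# Sums-differences with multiplicities for sets of slopes
-/

set_option autoImplicit false

open Finset

namespace Pool.Agent.K3h46.MU

/-- the projection `π_r(A) = {x + r y : (x, y) ∈ A}` -/
def proj (r : ℚ) (A : Finset (ℤ × ℤ)) : Finset ℚ :=
  A.image (fun p : ℤ × ℤ => (p.1 : ℚ) + r * (p.2 : ℚ))

/-- the projection `π_∞(A) = {y : (x, y) ∈ A}` -/
def projInf (A : Finset (ℤ × ℤ)) : Finset ℚ := A.image (fun p : ℤ × ℤ => (p.2 : ℚ))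

/-- the largest size of a projection of `A` with slope `∞` or in `S` -/
def big (S : Finset ℚ) (A : Finset (ℤ × ℤ)) : ℕ :=
  max (projInf A).card (S.sup fun r => (proj r A).card)

/-- the inequality with exponent `κ` and the slopes `∞` and `S` -/
def Bound (S : Finset ℚ) (κ : ℝ) : Prop :=
  ∀ A : Finset (ℤ × ℤ), ((proj (-1) A).card : ℝ) ≤ (big S A : ℝ) ^ κ

/-- the integer forms of the slopes -/
def fa (S : Finset ℚ) : Option S → ℤ
  | none => 1
  | some r => r.1.num

/-- the integer forms of the slopes -/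
def fb (S : Finset ℚ) : Option S → ℤ
  | none => 0
  | some r => r.1.den

theorem card_none (S : Finset ℚ) (A : Finset (ℤ × ℤ)) :
    (A.image (fun p => fb S none * p.1 + fa S none * p.2)).card = (projInf A).card := by
  classical
  have : projInf A = (A.image (fun p => fb S none * p.1 + fa S none * p.2)).image
      (fun z : ℤ => (z : ℚ)) := by
    unfold projInf
    rw [Finset.image_image]
    refine Finset.image_congr fun p _ => ?_
    simp [fa, fb]
  rw [this, Finset.card_image_of_injective _ Int.cast_injective]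

theorem card_some (S : Finset ℚ) (r : S) (A : Finset (ℤ × ℤ)) :
    (A.image (fun p => fb S (some r) * p.1 + fa S (some r) * p.2)).card =
      (proj r.1 A).card := by
  classical
  have hd : ((r.1.den : ℤ) : ℚ) ≠ 0 := by exact_mod_cast r.1.den_nz
  have hr : (r.1.num : ℚ) = r.1 * ((r.1.den : ℤ) : ℚ) := by
    have := Rat.mul_den_eq_num r.1
    push_cast
    linarith
  have h1 : (A.image (fun p => fb S (some r) * p.1 + fa S (some r) * p.2)).image
      (fun z : ℤ => (z : ℚ)) = (proj r.1 A).image (fun x => ((r.1.den : ℤ) : ℚ) * x) := by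
    unfold proj
    rw [Finset.image_image, Finset.image_image]
    refine Finset.image_congr fun p _ => ?_
    simp only [Function.comp, fa, fb]
    push_cast
    push_cast at hr
    rw [hr]
    ring
  have h2 := Finset.card_image_of_injective (A.image (fun p => fb S (some r) * p.1 + fa S (some r) * p.2))
    (f := fun z : ℤ => (z : ℚ)) Int.cast_injective
  rw [← h2, h1, Finset.card_image_of_injective]
  intro x y hxy
  simp only at hxy
  exact mul_left_cancel₀ hd hxy

theorem card_neg (A : Finset (ℤ × ℤ)) :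
    (A.image (fun p => p.1 - p.2)).card = (proj (-1) A).card := by
  classical
  have : proj (-1) A = (A.image (fun p => p.1 - p.2)).image (fun z : ℤ => (z : ℚ)) := by
    unfold proj
    rw [Finset.image_image]
    refine Finset.image_congr fun p _ => ?_
    simp only [Function.comp]
    push_cast
    ring
  rw [this, Finset.card_image_of_injective _ Int.cast_injective]

theorem card_le_big (S : Finset ℚ) (A : Finset (ℤ × ℤ)) (i : Option S) :
    (A.image (fun p => fb S i * p.1 + fa S i * p.2)).card ≤ big S A := by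
  cases i with
  | none => rw [card_none]; exact le_max_left _ _
  | some r =>
    rw [card_some]
    exact (Finset.le_sup (f := fun r => (proj r A).card) r.2).trans (le_max_right _ _)

theorem big_le (S : Finset ℚ) (A : Finset (ℤ × ℤ)) (N : ℕ)
    (h : ∀ i, (A.image (fun p => fb S i * p.1 + fa S i * p.2)).card ≤ N) : big S A ≤ N := by
  unfold big
  apply max_le
  · rw [← card_none S]; exact h none
  · apply Finset.sup_le
    intro r hr
    have := h (some ⟨r, hr⟩)
    rwa [card_some] at this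

theorem hb_of_bound {S : Finset ℚ} {κ : ℝ} (hκ : 0 ≤ κ) (h : Bound S κ) : HB (fa S) (fb S) κ := by
  intro A N hN
  rw [card_neg]
  refine (h A).trans (Real.rpow_le_rpow (Nat.cast_nonneg _) ?_ hκ)
  exact_mod_cast big_le S A N hN

/-- **the inequality with multiplicities** -/
theorem moment_slopes {S : Finset ℚ} {κ : ℝ} (h1 : 1 ≤ κ) (h2 : κ ≤ 2) (h : Bound S κ)
    (A : Finset (ℤ × ℤ)) :
    ∑ d ∈ A.image (fun p => p.1 - p.2), (rep A d : ℝ) ^ (κ - 1) ≤ (big S A : ℝ) ^ κ := by
  refine moment (hb_of_bound (by linarith) h) h1 h2 ?_ ⟨none, ?_⟩ A (big S A) (card_le_big S A)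
  · rintro (_ | r) h0
    · simp [fa] at h0
    · simp [fb] at h0
  · simp [fa, fb]

theorem sdc_bound : ∃ S : Finset ℚ, (-1 : ℚ) ∉ S ∧ Bound S 1.669587 := by
  obtain ⟨S, hS, h⟩ := Pool.Agent.TH404.AK.sdc3
  refine ⟨S, hS, fun A => ?_⟩
  have h1 := h A
  have h2 : (1.669587 : ℝ) = 1669587 / 1000000 := by norm_num
  unfold big proj projInf
  rw [h2]
  push_cast
  exact h1

theorem rep_pos {A : Finset (ℤ × ℤ)} {d : ℤ} (hd : d ∈ A.image (fun p => p.1 - p.2)) :
    1 ≤ rep A d := by
  obtain ⟨p, hp, rfl⟩ := mem_image.1 hd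
  unfold rep
  rw [Nat.one_le_iff_ne_zero, ← Nat.pos_iff_ne_zero, Finset.card_pos]
  exact ⟨p, mem_filter.2 ⟨hp, rfl⟩⟩

theorem sum_rep (A : Finset (ℤ × ℤ)) :
    ∑ d ∈ A.image (fun p => p.1 - p.2), (rep A d : ℝ) = A.card := by
  classical
  have := (Finset.card_eq_sum_card_image (fun p : ℤ × ℤ => p.1 - p.2) A).symm
  unfold rep
  exact_mod_cast this

/-- the moment inequality bounds the number of all pairs -/
theorem card_of_moment {A : Finset (ℤ × ℤ)} {κ y : ℝ} (h2 : κ ≤ 2) {R : ℕ}
    (hR : ∀ d, rep A d ≤ R)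
    (h : ∑ d ∈ A.image (fun p => p.1 - p.2), (rep A d : ℝ) ^ (κ - 1) ≤ y) :
    (A.card : ℝ) ≤ (R : ℝ) ^ (2 - κ) * y := by
  rw [← sum_rep A]
  have h3 : ∀ d ∈ A.image (fun p : ℤ × ℤ => p.1 - p.2), (rep A d : ℝ) ≤
      (R : ℝ) ^ (2 - κ) * (rep A d : ℝ) ^ (κ - 1) := by
    intro d hd
    have h4 : (0 : ℝ) < rep A d := by exact_mod_cast rep_pos hd
    have h5 : (rep A d : ℝ) = (rep A d : ℝ) ^ (2 - κ) * (rep A d : ℝ) ^ (κ - 1) := by
      rw [← Real.rpow_add h4]
      norm_num
    calc (rep A d : ℝ) = (rep A d : ℝ) ^ (2 - κ) * (rep A d : ℝ) ^ (κ - 1) := h5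
      _ ≤ _ := by
        apply mul_le_mul_of_nonneg_right _ (Real.rpow_nonneg (Nat.cast_nonneg _) _)
        exact Real.rpow_le_rpow (Nat.cast_nonneg _) (by exact_mod_cast hR d) (by linarith)
  refine (Finset.sum_le_sum h3).trans ?_
  rw [← Finset.mul_sum]
  gcongr

/-- squares of integers have few projections and many differences with many representations -/
theorem sharp (S : Finset ℚ) (κ θ C : ℝ) (hθ : 0 ≤ θ) (hκ : 0 ≤ κ) (h : κ < 1 + θ) :
    ∃ A : Finset (ℤ × ℤ), C * (big S A : ℝ) ^ κ <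
      ∑ d ∈ A.image (fun p => p.1 - p.2), (rep A d : ℝ) ^ θ := by
  classical
  -- the constant for the projections
  obtain ⟨K, hK1, hK⟩ : ∃ K : ℕ, 1 ≤ K ∧ ∀ i : Option S, 2 * ((fa S i).natAbs + (fb S i).natAbs) + 1 ≤ K := by
    refine ⟨∑ i : Option S, (2 * ((fa S i).natAbs + (fb S i).natAbs) + 1) + 1, by omega, ?_⟩
    intro i
    have := Finset.single_le_sum (f := fun i : Option S => 2 * ((fa S i).natAbs + (fb S i).natAbs) + 1)
      (fun _ _ => Nat.zero_le _) (mem_univ i)
    omega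
  have hgrow : Filter.Tendsto (fun n : ℕ => (n : ℝ) ^ (1 + θ - κ)) Filter.atTop Filter.atTop :=
    (tendsto_rpow_atTop (by linarith)).comp tendsto_natCast_atTop_atTop
  obtain ⟨n, hn, hn1⟩ := ((hgrow.eventually (Filter.eventually_gt_atTop
    (|C| * ((2 * K : ℕ) : ℝ) ^ κ))).and (Filter.eventually_ge_atTop 1)).exists
  set A : Finset (ℤ × ℤ) := Finset.Ico (0 : ℤ) (2 * n) ×ˢ Finset.Ico (0 : ℤ) (2 * n) with hA
  have hn0 : (0 : ℝ) < n := by exact_mod_cast hn1
  refine ⟨A, ?_⟩
  -- the projections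
  have hbig : big S A ≤ 2 * K * n := by
    apply big_le
    intro i
    obtain ⟨M, hM⟩ : ∃ M : ℕ, M = (fa S i).natAbs + (fb S i).natAbs := ⟨_, rfl⟩
    have hMz : (M : ℤ) = |fa S i| + |fb S i| := by
      rw [hM, Int.abs_eq_natAbs, Int.abs_eq_natAbs]
      push_cast
      rfl
    have hsub : A.image (fun p => fb S i * p.1 + fa S i * p.2) ⊆
        Finset.Icc (-((M : ℤ) * (2 * n))) ((M : ℤ) * (2 * n)) := by
      intro z hz
      obtain ⟨p, hp, rfl⟩ := mem_image.1 hz
      rw [hA, mem_product, mem_Ico, mem_Ico] at hp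
      rw [mem_Icc, ← abs_le]
      have e1 : |p.1| ≤ 2 * n := by rw [abs_le]; constructor <;> linarith [hp.1.1, hp.1.2]
      have e2 : |p.2| ≤ 2 * n := by rw [abs_le]; constructor <;> linarith [hp.2.1, hp.2.2]
      calc |fb S i * p.1 + fa S i * p.2| ≤ |fb S i| * |p.1| + |fa S i| * |p.2| := by
            rw [← abs_mul, ← abs_mul]; exact abs_add_le _ _
        _ ≤ |fb S i| * (2 * n) + |fa S i| * (2 * n) := by gcongr
        _ = (M : ℤ) * (2 * n) := by rw [hMz]; ring
    refine (Finset.card_le_card hsub).trans ?_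
    rw [Int.card_Icc]
    have h3 := hK i
    rw [← hM] at h3
    have h4 : ((M : ℤ) * (2 * n) + 1 - -((M : ℤ) * (2 * n))) = ((4 * M * n + 1 : ℕ) : ℤ) := by
      push_cast; ring
    rw [h4, Int.toNat_natCast]
    calc 4 * M * n + 1 ≤ 2 * (2 * M + 1) * n := by nlinarith
      _ ≤ 2 * K * n := by gcongr
  -- the differences
  have hrep : ∀ d ∈ Finset.Ico (0 : ℤ) n, n ≤ rep A d := by
    intro d hd
    rw [mem_Ico] at hd
    unfold rep
    have h5 : (Finset.Ico (0 : ℤ) n).card = n := by simp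
    calc n = (Finset.Ico (0 : ℤ) n).card := h5.symm
      _ ≤ _ := by
        apply Finset.card_le_card_of_injOn (fun x => (x + d, x))
        · intro x hx
          rw [mem_coe, mem_Ico] at hx
          rw [mem_coe, mem_filter, hA, mem_product, mem_Ico, mem_Ico]
          refine ⟨⟨⟨?_, ?_⟩, ?_, ?_⟩, ?_⟩
          · simp only; linarith [hx.1, hd.1]
          · simp only; linarith [hx.2, hd.2]
          · exact hx.1
          · simp only; linarith [hx.2, hx.1, hd.1]
          · simp only; ring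
        · intro x _ y _ hxy
          exact congrArg Prod.snd hxy
  have hsubd : Finset.Ico (0 : ℤ) n ⊆ A.image (fun p => p.1 - p.2) := by
    intro d hd
    have h6 : 0 < rep A d := lt_of_lt_of_le hn1 (hrep d hd)
    unfold rep at h6
    obtain ⟨p, hp⟩ := Finset.card_pos.1 h6
    rw [mem_filter] at hp
    exact mem_image.2 ⟨p, hp.1, hp.2⟩
  calc C * (big S A : ℝ) ^ κ ≤ |C| * (((2 * K * n : ℕ) : ℝ)) ^ κ := by
        apply mul_le_mul (le_abs_self C) _ (by positivity) (abs_nonneg C)
        exact Real.rpow_le_rpow (Nat.cast_nonneg _) (by exact_mod_cast hbig) hκ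
    _ = |C| * ((2 * K : ℕ) : ℝ) ^ κ * (n : ℝ) ^ κ := by
        rw [Nat.cast_mul, Real.mul_rpow (Nat.cast_nonneg _) (Nat.cast_nonneg _)]; ring
    _ < (n : ℝ) ^ (1 + θ - κ) * (n : ℝ) ^ κ := by
        apply mul_lt_mul_of_pos_right hn (by positivity)
    _ = n * (n : ℝ) ^ θ := by
        rw [← Real.rpow_add hn0]
        have : 1 + θ - κ + κ = 1 + θ := by ring
        rw [this, Real.rpow_add hn0, Real.rpow_one]
    _ = ∑ d ∈ Finset.Ico (0 : ℤ) n, (n : ℝ) ^ θ := by
        rw [Finset.sum_const, nsmul_eq_mul]; simp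
    _ ≤ ∑ d ∈ Finset.Ico (0 : ℤ) n, (rep A d : ℝ) ^ θ := by
        apply Finset.sum_le_sum
        intro d hd
        exact Real.rpow_le_rpow (Nat.cast_nonneg _) (by exact_mod_cast hrep d hd) hθ
    _ ≤ _ := Finset.sum_le_sum_of_subset_of_nonneg hsubd fun _ _ _ => by positivity

end Pool.Agent.K3h46.MU
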