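import Pool.Agent.K3h46.MU.Hash

/-!
# Sums-differences inequalities with multiplicities

The tensor power trick: `∑_d r(d) ^ (κ - 1) ≤ N ^ κ`.
-/

set_option autoImplicit false

open Finset

namespace Pool.Agent.K3h46.MU

/-- the number of representations of `d` as a difference of a pair of `A` -/
def rep (A : Finset (ℤ × ℤ)) (d : ℤ) : ℕ := (A.filter fun p => p.1 - p.2 = d).card

/-- the Cartesian power -/
def pw (A : Finset (ℤ × ℤ)) (n : ℕ) : Finset ((Fin n → ℤ) × (Fin n → ℤ)) :=
  (Fintype.piFinset fun _ : Fin n => A).image fun f => (fun j => (f j).1, fun j => (f j).2)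

theorem mem_pw {A : Finset (ℤ × ℤ)} {n : ℕ} {p : (Fin n → ℤ) × (Fin n → ℤ)} :
    p ∈ pw A n ↔ ∀ j, (p.1 j, p.2 j) ∈ A := by
  unfold pw
  rw [mem_image]
  constructor
  · rintro ⟨f, hf, rfl⟩ j
    rw [Fintype.mem_piFinset] at hf
    exact hf j
  · intro h
    exact ⟨fun j => (p.1 j, p.2 j), Fintype.mem_piFinset.2 h, rfl⟩

theorem card_fiber (A : Finset (ℤ × ℤ)) {n : ℕ} (d : Fin n → ℤ) :
    ((pw A n).filter fun p => dif p = d).card = ∏ j, rep A (d j) := by
  classical
  unfold rep
  rw [← Fintype.card_piFinset]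
  refine Finset.card_bij' (fun p _ => fun j => (p.1 j, p.2 j))
    (fun f _ => (fun j => (f j).1, fun j => (f j).2)) ?_ ?_ ?_ ?_
  · intro p hp
    rw [mem_filter, mem_pw] at hp
    rw [Fintype.mem_piFinset]
    intro j
    rw [mem_filter]
    exact ⟨hp.1 j, congrFun hp.2 j⟩
  · intro f hf
    rw [Fintype.mem_piFinset] at hf
    rw [mem_filter, mem_pw]
    exact ⟨fun j => (mem_filter.1 (hf j)).1, funext fun j => (mem_filter.1 (hf j)).2⟩
  · intro p _
    rfl
  · intro f _
    rfl

theorem card_fiber_snd (A : Finset ((ℤ × ℤ))) {n : ℕ} (B : Finset ((Fin n → ℤ) × (Fin n → ℤ)))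
    (d : Fin n → ℤ) :
    ((B.filter fun p => dif p = d).image Prod.snd).card = (B.filter fun p => dif p = d).card := by
  apply Finset.card_image_of_injOn
  intro p hp q hq hpq
  rw [mem_coe, mem_filter] at hp hq
  have h1 : dif p = dif q := hp.2.trans hq.2.symm
  refine Prod.ext (funext fun j => ?_) hpq
  have h2 := congrFun h1 j
  have h3 := congrFun hpq j
  unfold dif at h2
  rw [h3] at h2
  linarith

theorem pw_form_card (A : Finset (ℤ × ℤ)) (n : ℕ) (a b : ℤ) :
    ((pw A n).image (form a b)).card ≤ ((A.image fun p => b * p.1 + a * p.2).card) ^ n := by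
  classical
  have h1 : (pw A n).image (form a b) ⊆
      Fintype.piFinset fun _ : Fin n => A.image fun p => b * p.1 + a * p.2 := by
    intro z hz
    obtain ⟨p, hp, rfl⟩ := mem_image.1 hz
    rw [mem_pw] at hp
    rw [Fintype.mem_piFinset]
    intro j
    exact mem_image.2 ⟨_, hp j, rfl⟩
  refine (Finset.card_le_card h1).trans ?_
  rw [Fintype.card_piFinset, Finset.prod_const, Finset.card_univ, Fintype.card_fin]

theorem pw_dif (A : Finset (ℤ × ℤ)) (n : ℕ) :
    (pw A n).image dif = Fintype.piFinset fun _ : Fin n => A.image fun p => p.1 - p.2 := by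
  classical
  ext z
  rw [mem_image, Fintype.mem_piFinset]
  constructor
  · rintro ⟨p, hp, rfl⟩ j
    rw [mem_pw] at hp
    exact mem_image.2 ⟨_, hp j, rfl⟩
  · intro h
    have h1 : ∀ j, ∃ p ∈ A, p.1 - p.2 = z j := fun j => mem_image.1 (h j)
    choose f hf1 hf2 using h1
    exact ⟨(fun j => (f j).1, fun j => (f j).2), mem_pw.2 fun j => hf1 j, funext fun j => hf2 j⟩

/-- small vectors are separated modulo large primes -/
theorem sep_of_bound {ℓ n : ℕ} {P : Finset (Fin n → ℤ)} {B : ℕ} (hB : 2 * B < ℓ)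
    (hP : ∀ z ∈ P, ∀ j, |z j| ≤ B) : Sep ℓ P := by
  intro z hz w hw hzw h0
  apply hzw
  funext j
  have h1 := congrFun h0 j
  simp only [Pi.zero_apply] at h1
  rw [ZMod.intCast_zmod_eq_zero_iff_dvd] at h1
  have h2 : |z j - w j| < ℓ := by
    have := abs_sub (z j) (w j)
    have h3 := hP z hz j
    have h4 := hP w hw j
    have h5 : ((2 * B : ℕ) : ℤ) < (ℓ : ℤ) := by exact_mod_cast hB
    push_cast at h5
    linarith
  have h6 := Int.eq_zero_of_abs_lt_dvd h1 h2
  linarith

theorem pow_trick {x y C D : ℝ} (hy : 0 ≤ y)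
    (h : ∀ n : ℕ, x ^ n ≤ (C * n + D) * y ^ n) : x ≤ y := by
  by_contra hcon
  push Not at hcon
  rcases hy.eq_or_lt with h0 | h0
  · have := h 1
    rw [← h0] at this
    simp at this
    linarith
  have hr : 1 < x / y := by rwa [one_lt_div h0]
  have h1 : ∀ n : ℕ, (x / y) ^ n ≤ C * n + D := by
    intro n
    rw [div_pow, div_le_iff₀ (by positivity)]
    exact h n
  have h2 := tendsto_pow_const_div_const_pow_of_one_lt 1 hr
  have h3 := tendsto_pow_const_div_const_pow_of_one_lt 0 hr
  have h4 := (h2.const_mul C).add (h3.const_mul D)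
  rw [mul_zero, mul_zero, add_zero] at h4
  have h5 := h4.eventually (gt_mem_nhds (show (0 : ℝ) < 1 by norm_num))
  obtain ⟨n, hn⟩ := h5.exists
  have h6 := h1 n
  have h7 : (0 : ℝ) < (x / y) ^ n := by positivity
  have h8 : C * ((n : ℝ) ^ 1 / (x / y) ^ n) + D * ((n : ℝ) ^ 0 / (x / y) ^ n) =
      (C * n + D) / (x / y) ^ n := by
    rw [pow_one, pow_zero]
    field_simp
  rw [h8, div_lt_one h7] at hn
  linarith

/-- **sums-differences with multiplicities**: the same forms and the same exponent. -/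
theorem moment {ι : Type} [Fintype ι] [Nonempty ι] {a b : ι → ℤ} {κ : ℝ} (h : HB a b κ)
    (h1 : 1 ≤ κ) (h2 : κ ≤ 2) (hab : ∀ i, ¬ (a i = 0 ∧ b i = 0)) (hne : ∃ i, a i + b i ≠ 0)
    (A : Finset (ℤ × ℤ)) (N : ℕ)
    (hN : ∀ i, (A.image (fun p => b i * p.1 + a i * p.2)).card ≤ N) :
    ∑ d ∈ A.image (fun p => p.1 - p.2), (rep A d : ℝ) ^ (κ - 1) ≤ (N : ℝ) ^ κ := by
  classical
  have hκ : 0 ≤ κ - 1 := by linarith
  rcases A.eq_empty_or_nonempty with rfl | hAne
  · simp only [image_empty, sum_empty]; positivity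
  have hN1 : 1 ≤ N := by
    obtain ⟨i⟩ := (inferInstance : Nonempty ι)
    refine le_trans ?_ (hN i)
    exact Finset.card_pos.2 (hAne.image _)
  have hNr : (1 : ℝ) ≤ N := by exact_mod_cast hN1
  -- a bound for all the numbers
  obtain ⟨B, hB⟩ : ∃ B : ℕ, (∀ p ∈ A, |p.2| ≤ B) ∧ (∀ i, ∀ p ∈ A, |b i * p.1 + a i * p.2| ≤ B) ∧
      ∀ i, |a i| ≤ B ∧ |b i| ≤ B := by
    refine ⟨∑ p ∈ A, p.2.natAbs + ∑ i, ∑ p ∈ A, (b i * p.1 + a i * p.2).natAbs +
      ∑ i, ((a i).natAbs + (b i).natAbs), ?_, ?_, ?_⟩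
    · intro p hp
      rw [Int.abs_eq_natAbs]
      have := Finset.single_le_sum (f := fun p : ℤ × ℤ => p.2.natAbs) (fun _ _ => Nat.zero_le _) hp
      exact_mod_cast (by omega)
    · intro i p hp
      rw [Int.abs_eq_natAbs]
      have e1 := Finset.single_le_sum (f := fun p : ℤ × ℤ => (b i * p.1 + a i * p.2).natAbs)
        (fun _ _ => Nat.zero_le _) hp
      have e2 := Finset.single_le_sum
        (f := fun i => ∑ p ∈ A, (b i * p.1 + a i * p.2).natAbs)
        (fun _ _ => Nat.zero_le _) (mem_univ i)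
      exact_mod_cast (by omega)
    · intro i
      rw [Int.abs_eq_natAbs, Int.abs_eq_natAbs]
      have e1 := Finset.single_le_sum (f := fun i => (a i).natAbs + (b i).natAbs)
        (fun _ _ => Nat.zero_le _) (mem_univ i)
      constructor
      · exact_mod_cast (by omega)
      · exact_mod_cast (by omega)
  obtain ⟨hB1, hB2, hB3⟩ := hB
  set D := A.image (fun p : ℤ × ℤ => p.1 - p.2) with hD
  set R : (n : ℕ) → (Fin n → ℤ) → ℕ := fun n d => ∏ j, rep A (d j) with hR
  have hRpos : ∀ n, ∀ d ∈ (pw A n).image dif, 1 ≤ R n d := by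
    intro n d hd
    rw [hR]
    simp only
    rw [← card_fiber, Nat.one_le_iff_ne_zero, ← Nat.pos_iff_ne_zero, Finset.card_pos]
    obtain ⟨p, hp, rfl⟩ := mem_image.1 hd
    exact ⟨p, mem_filter.2 ⟨hp, rfl⟩⟩
  have hRle : ∀ n d, R n d ≤ 2 ^ (A.card * n) := by
    intro n d
    rw [hR]
    simp only
    calc ∏ j, rep A (d j) ≤ ∏ j : Fin n, 2 ^ A.card := by
          apply Finset.prod_le_prod'
          intro j _
          exact (Finset.card_filter_le _ _).trans (Nat.lt_two_pow_self).le
      _ = 2 ^ (A.card * n) := by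
          rw [Finset.prod_const, Finset.card_univ, Fintype.card_fin, pow_mul]
  -- the set of the pairs of multiplicity about `2 ^ j`
  set Aj : (n : ℕ) → ℕ → Finset ((Fin n → ℤ) × (Fin n → ℤ)) := fun n j =>
    (pw A n).filter fun p => Nat.log 2 (R n (dif p)) = j with hAj
  have hAjd : ∀ n j, (Aj n j).image dif = ((pw A n).image dif).filter
      fun d => Nat.log 2 (R n d) = j := by
    intro n j
    ext d
    rw [mem_image, mem_filter, mem_image]
    constructor
    · rintro ⟨p, hp, rfl⟩
      rw [hAj, mem_filter] at hp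
      exact ⟨⟨p, hp.1, rfl⟩, hp.2⟩
    · rintro ⟨⟨p, hp, rfl⟩, hj⟩
      exact ⟨p, mem_filter.2 ⟨hp, hj⟩, rfl⟩
  have hAjN : ∀ n j i, ((Aj n j).image (form (a i) (b i))).card ≤ N ^ n := by
    intro n j i
    refine (Finset.card_le_card (Finset.image_subset_image (Finset.filter_subset _ _))).trans ?_
    exact (pw_form_card A n (a i) (b i)).trans (Nat.pow_le_pow_left (hN i) n)
  have hfib : ∀ n j, ∀ d ∈ (Aj n j).image dif,
      (((Aj n j).filter fun p => dif p = d).image Prod.snd).card = R n d := by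
    intro n j d hd
    rw [card_fiber_snd A]
    rw [hR]
    simp only
    rw [← card_fiber]
    congr 1
    rw [hAj]
    simp only
    rw [Finset.filter_filter]
    apply Finset.filter_congr
    intro p hp
    rw [hAjd, mem_filter] at hd
    constructor
    · exact fun h => h.2
    · intro h
      refine ⟨?_, h⟩
      rw [h]
      exact hd.2
  -- the bound for one class
  obtain ⟨K, hK⟩ : ∃ K : ℝ, K = 24 * Fintype.card ι + (8 * B + 8) := ⟨_, rfl⟩
  have hcls : ∀ n j, ∑ d ∈ (Aj n j).image dif, (R n d : ℝ) ^ (κ - 1) ≤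
      K * ((N : ℝ) ^ κ) ^ n := by
    intro n j
    have hNn : (((N ^ n : ℕ) : ℝ)) ^ κ = ((N : ℝ) ^ κ) ^ n := by
      push_cast
      rw [← Real.rpow_natCast ((N : ℝ) ^ κ) n, ← Real.rpow_mul (by positivity),
        mul_comm κ, Real.rpow_mul (by positivity), Real.rpow_natCast]
    have hmax : ∀ d ∈ (Aj n j).image dif, (R n d : ℝ) ^ (κ - 1) ≤ ((2 : ℝ) ^ (j + 1)) ^ (κ - 1) := by
      intro d hd
      rw [hAjd, mem_filter] at hd
      apply Real.rpow_le_rpow (Nat.cast_nonneg _) _ hκ
      have := Nat.lt_pow_succ_log_self (b := 2) (by norm_num) (R n d)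
      rw [hd.2] at this
      exact_mod_cast this.le
    have hsum : ∑ d ∈ (Aj n j).image dif, (R n d : ℝ) ^ (κ - 1) ≤
        (((Aj n j).image dif).card : ℝ) * ((2 : ℝ) ^ (j + 1)) ^ (κ - 1) := by
      rw [← nsmul_eq_mul, ← Finset.sum_const]
      exact Finset.sum_le_sum hmax
    rcases ((Aj n j).image dif).eq_empty_or_nonempty with hem | hnem
    · rw [hem, Finset.sum_empty, hK]; positivity
    by_cases hj : 2 ^ (j - 1) ≤ 2 * B ∨ j = 0
    · have e1 := transfer h (Aj n j) (N ^ n) (hAjN n j)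
      rw [hNn] at e1
      have e2 : ((2 : ℝ) ^ (j + 1)) ^ (κ - 1) ≤ 8 * B + 8 := by
        have e3 : (2 : ℝ) ^ (j + 1) ≤ 8 * B + 8 := by
          rcases hj with hj | hj
          · have : 2 ^ (j + 1) ≤ 4 * 2 ^ (j - 1) := by
              rcases j with _ | j
              · norm_num
              · rw [show (4 : ℕ) = 2 ^ 2 by norm_num, ← pow_add]
                exact Nat.pow_le_pow_right (by norm_num) (by omega)
            have h5 : 2 ^ (j + 1) ≤ 8 * B + 8 := by omega
            exact_mod_cast h5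
          · rw [hj]
            have : (0 : ℝ) ≤ B := Nat.cast_nonneg _
            norm_num
            linarith
        have e4 : (1 : ℝ) ≤ (2 : ℝ) ^ (j + 1) := one_le_pow₀ (by norm_num)
        calc ((2 : ℝ) ^ (j + 1)) ^ (κ - 1) ≤ ((2 : ℝ) ^ (j + 1)) ^ (1 : ℝ) :=
              Real.rpow_le_rpow_of_exponent_le e4 (by linarith)
          _ ≤ _ := by rw [Real.rpow_one]; exact e3
      have hK' : (8 * B + 8 : ℝ) ≤ K := by
        rw [hK]
        have : (0 : ℝ) ≤ Fintype.card ι := Nat.cast_nonneg _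
        linarith
      have hy : 0 ≤ ((N : ℝ) ^ κ) ^ n := by positivity
      calc _ ≤ (((Aj n j).image dif).card : ℝ) * ((2 : ℝ) ^ (j + 1)) ^ (κ - 1) := hsum
        _ ≤ ((N : ℝ) ^ κ) ^ n * (8 * B + 8) := by
            apply mul_le_mul e1 e2 (by positivity) hy
        _ ≤ K * ((N : ℝ) ^ κ) ^ n := by
            rw [mul_comm]
            gcongr
    · push Not at hj
      obtain ⟨hj1, hj0⟩ := hj
      obtain ⟨ℓ, hℓ, hℓ1, hℓ2⟩ := Nat.exists_prime_lt_and_le_two_mul (2 ^ (j - 1)) (by positivity)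
      have : Fact ℓ.Prime := ⟨hℓ⟩
      have h2j : 2 * 2 ^ (j - 1) = 2 ^ j := by
        rw [← pow_succ']
        congr 1
        omega
      rw [h2j] at hℓ2
      have hℓB : 2 * B < ℓ := by omega
      have hmul : ∀ d ∈ (Aj n j).image dif,
          ℓ ≤ (((Aj n j).filter fun p => dif p = d).image Prod.snd).card := by
        intro d hd
        rw [hfib n j d hd]
        rw [hAjd, mem_filter] at hd
        have := Nat.pow_log_le_self 2 (x := R n d) (by have := hRpos n d hd.1; omega)
        rw [hd.2] at this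
        exact hℓ2.trans this
      have hℓN : ℓ ≤ N ^ n := by
        obtain ⟨d, hd⟩ := hnem
        obtain ⟨i, hi⟩ := hne
        refine (hmul d hd).trans ?_
        rw [card_fiber_snd A]
        refine le_trans ?_ (hAjN n j i)
        rw [← Finset.card_image_of_injOn (s := (Aj n j).filter fun p => dif p = d)
          (f := form (a i) (b i))]
        · exact Finset.card_le_card (Finset.image_subset_image (Finset.filter_subset _ _))
        · intro p hp q hq hpq
          rw [mem_coe, mem_filter] at hp hq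
          have h5 : dif p = dif q := hp.2.trans hq.2.symm
          have key : ∀ k, p.1 k = q.1 k ∧ p.2 k = q.2 k := by
            intro k
            have h6 := congrFun h5 k
            have h7 := congrFun hpq k
            simp only [dif] at h6
            simp only [form] at h7
            have h8 : (a i + b i) * (p.2 k - q.2 k) = 0 := by
              have : p.1 k - q.1 k = p.2 k - q.2 k := by linarith
              linear_combination h7 - (b i) * this
            rcases mul_eq_zero.1 h8 with h9 | h9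
            · exact absurd h9 hi
            · constructor
              · linarith
              · linarith
          exact Prod.ext (funext fun k => (key k).1) (funext fun k => (key k).2)
      have e1 := hash (ℓ := ℓ) h h1 h2 (Aj n j) (N ^ n) (hAjN n j) hℓN
        (by
          intro i hcon
          apply hab i
          rw [ZMod.intCast_zmod_eq_zero_iff_dvd, ZMod.intCast_zmod_eq_zero_iff_dvd] at hcon
          have hb := hB3 i
          have hBl : (B : ℤ) < ℓ := by exact_mod_cast (by omega : B < ℓ)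
          exact ⟨Int.eq_zero_of_abs_lt_dvd hcon.1 (by linarith [hb.1]),
            Int.eq_zero_of_abs_lt_dvd hcon.2 (by linarith [hb.2])⟩)
        (by
          intro i
          apply sep_of_bound hℓB
          intro z hz k
          obtain ⟨p, hp, rfl⟩ := mem_image.1 hz
          rw [hAj, mem_filter, mem_pw] at hp
          exact hB2 i _ (hp.1 k))
        (by
          apply sep_of_bound hℓB
          intro z hz k
          obtain ⟨p, hp, rfl⟩ := mem_image.1 hz
          rw [hAj, mem_filter, mem_pw] at hp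
          exact hB1 _ (hp.1 k))
        hmul
      rw [hNn] at e1
      have e2 : ((2 : ℝ) ^ (j + 1)) ^ (κ - 1) ≤ 4 * (ℓ : ℝ) ^ (κ - 1) := by
        have e3 : (2 : ℝ) ^ (j + 1) ≤ 4 * ℓ := by
          have : 2 ^ (j + 1) = 4 * 2 ^ (j - 1) := by
            rw [show (4 : ℕ) = 2 ^ 2 by norm_num, ← pow_add]
            congr 1
            omega
          have h5 : 2 ^ (j + 1) ≤ 4 * ℓ := by omega
          exact_mod_cast h5
        calc ((2 : ℝ) ^ (j + 1)) ^ (κ - 1) ≤ (4 * (ℓ : ℝ)) ^ (κ - 1) :=
              Real.rpow_le_rpow (by positivity) e3 hκ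
          _ = 4 ^ (κ - 1) * (ℓ : ℝ) ^ (κ - 1) := Real.mul_rpow (by norm_num) (Nat.cast_nonneg _)
          _ ≤ 4 * (ℓ : ℝ) ^ (κ - 1) := by
              gcongr
              calc (4 : ℝ) ^ (κ - 1) ≤ 4 ^ (1 : ℝ) :=
                    Real.rpow_le_rpow_of_exponent_le (by norm_num) (by linarith)
                _ = 4 := Real.rpow_one _
      have hy : 0 ≤ ((N : ℝ) ^ κ) ^ n := by positivity
      calc _ ≤ (((Aj n j).image dif).card : ℝ) * ((2 : ℝ) ^ (j + 1)) ^ (κ - 1) := hsum
        _ ≤ (((Aj n j).image dif).card : ℝ) * (4 * (ℓ : ℝ) ^ (κ - 1)) := by gcongr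
        _ = 4 * ((((Aj n j).image dif).card : ℝ) * (ℓ : ℝ) ^ (κ - 1)) := by ring
        _ ≤ 4 * (6 * Fintype.card ι * ((N : ℝ) ^ κ) ^ n) := by gcongr
        _ = 24 * Fintype.card ι * ((N : ℝ) ^ κ) ^ n := by ring
        _ ≤ K * ((N : ℝ) ^ κ) ^ n := by
            gcongr
            rw [hK]
            have : (0 : ℝ) ≤ B := Nat.cast_nonneg _
            linarith
  -- the sum over all the classes
  have hall : ∀ n : ℕ, (∑ d ∈ D, (rep A d : ℝ) ^ (κ - 1)) ^ n ≤
      (K * A.card * n + K) * ((N : ℝ) ^ κ) ^ n := by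
    intro n
    have e1 : (∑ d ∈ D, (rep A d : ℝ) ^ (κ - 1)) ^ n =
        ∑ d ∈ (pw A n).image dif, (R n d : ℝ) ^ (κ - 1) := by
      have e2 := Finset.prod_univ_sum (fun _ : Fin n => D) (fun _ d => (rep A d : ℝ) ^ (κ - 1))
      rw [Finset.prod_const, Finset.card_univ, Fintype.card_fin] at e2
      rw [e2, pw_dif]
      refine Finset.sum_congr rfl fun d _ => ?_
      rw [hR]
      simp only
      rw [Nat.cast_prod, ← Real.finsetProd_rpow _ _ (fun _ _ => Nat.cast_nonneg _)]
    rw [e1]
    have e3 : ∀ d ∈ (pw A n).image dif, Nat.log 2 (R n d) ∈ range (A.card * n + 1) := by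
      intro d _
      rw [mem_range, Nat.lt_succ_iff]
      calc Nat.log 2 (R n d) ≤ Nat.log 2 (2 ^ (A.card * n)) := Nat.log_mono_right (hRle n d)
        _ = A.card * n := Nat.log_pow (by norm_num) _
    rw [← Finset.sum_fiberwise_of_maps_to e3]
    have e4 : ∀ j ∈ range (A.card * n + 1),
        ∑ d ∈ (pw A n).image dif with Nat.log 2 (R n d) = j, (R n d : ℝ) ^ (κ - 1) ≤
          K * ((N : ℝ) ^ κ) ^ n := by
      intro j _
      rw [← hAjd]
      exact hcls n j
    refine (Finset.sum_le_sum e4).trans ?_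
    rw [Finset.sum_const, card_range, nsmul_eq_mul]
    push_cast
    apply le_of_eq
    ring
  exact pow_trick (by positivity) hall

end Pool.Agent.K3h46.MU
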